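import Pool.Agent.V11294.Th.Gam

open Finset

namespace V11294.Th

section G
variable (p m : ℕ) [hp : Fact p.Prime] (hpm : p = 4 * m + 1)

theorem prod_range_zmod (F : ZMod p → ZMod p) :
    ∏ j ∈ range p, F (j : ZMod p) = ∏ x : ZMod p, F x := by
  have : NeZero p := ⟨hp.1.ne_zero⟩
  apply Finset.prod_nbij' (fun j : ℕ => (j : ZMod p)) ZMod.val
  · intro a _; exact Finset.mem_univ _
  · intro a _; exact Finset.mem_range.2 (ZMod.val_lt a)
  · intro a ha; exact ZMod.val_cast_of_lt (Finset.mem_range.1 ha)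
  · intro a _; exact ZMod.natCast_zmod_val a
  · intro a _; rfl

/-- residues product without zero -/
def HH (y : ZMod p) : ZMod p := if y = 0 then 1 else y

theorem fA_cast (j : ℕ) : ((fA p j : ℕ) : ZMod p) = HH p (4 * (j : ZMod p) + 1) := by
  unfold fA HH
  have : ((4 * j + 1 : ℕ) : ZMod p) = 4 * (j : ZMod p) + 1 := by push_cast; rfl
  rw [← this]
  by_cases h : p ∣ 4 * j + 1
  · rw [if_pos h, if_pos ((ZMod.natCast_eq_zero_iff _ _).2 h)]; simp
  · rw [if_neg h, if_neg (fun h' => h ((ZMod.natCast_eq_zero_iff _ _).1 h'))]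

theorem gB_cast (j : ℕ) : ((gB p j : ℕ) : ZMod p) = HH p ((j : ZMod p) + 1) := by
  unfold gB HH
  have : ((j + 1 : ℕ) : ZMod p) = (j : ZMod p) + 1 := by push_cast; rfl
  rw [← this]
  by_cases h : p ∣ j + 1
  · rw [if_pos h, if_pos ((ZMod.natCast_eq_zero_iff _ _).2 h)]; simp
  · rw [if_neg h, if_neg (fun h' => h ((ZMod.natCast_eq_zero_iff _ _).1 h'))]

theorem AA_add (n : ℕ) : ((AA p (p + n) : ℕ) : ZMod p) = (AA p p : ℕ) * (AA p n : ℕ) := by
  unfold AA
  rw [Finset.prod_range_add]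
  push_cast
  simp only [fA_cast]
  simp

theorem BB_add (n : ℕ) : ((BB p (p + n) : ℕ) : ZMod p) = (BB p p : ℕ) * (BB p n : ℕ) := by
  unfold BB
  rw [Finset.prod_range_add]
  push_cast
  simp only [gB_cast]
  simp

theorem AA_mul (a n : ℕ) : ((AA p (p * a + n) : ℕ) : ZMod p) = ((AA p p : ℕ) : ZMod p) ^ a * (AA p n : ℕ) := by
  induction a with
  | zero => simp
  | succ a ih =>
    rw [show p * (a + 1) + n = p + (p * a + n) by ring, AA_add, ih, pow_succ]; ring

theorem BB_mul (a n : ℕ) : ((BB p (p * a + n) : ℕ) : ZMod p) = ((BB p p : ℕ) : ZMod p) ^ a * (BB p n : ℕ) := by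
  induction a with
  | zero => simp
  | succ a ih =>
    rw [show p * (a + 1) + n = p + (p * a + n) by ring, BB_add, ih, pow_succ]; ring

theorem BB_p : ((BB p p : ℕ) : ZMod p) = -1 := by
  have hp0 := hp.1.pos
  have h1 := fac_split p hp0 p
  rw [Nat.div_self hp0] at h1
  have h2 : p.factorial = p * (p - 1).factorial := (Nat.mul_factorial_pred hp0.ne').symm
  rw [h2] at h1
  have h3 : (p - 1).factorial = BB p p := by
    apply Nat.eq_of_mul_eq_mul_left hp0
    rw [h1]; simp; ring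
  rw [← h3, ZMod.wilsons_lemma]

include hpm in
theorem AA_p : ((AA p p : ℕ) : ZMod p) = -1 := by
  rw [← BB_p p]
  unfold AA BB
  push_cast
  simp only [fA_cast, gB_cast]
  rw [prod_range_zmod p (fun x => HH p (4 * x + 1)), prod_range_zmod p (fun x => HH p (x + 1))]
  have h4 := four_ne p m hpm
  have e : (fun x : ZMod p => HH p (4 * x + 1)) = fun x => (fun y => HH p (y + 1)) (Equiv.mulLeft₀ (4 : ZMod p) h4 x) := by
    funext x; simp
  rw [e]
  exact Equiv.prod_comp (Equiv.mulLeft₀ (4 : ZMod p) h4) (fun y => HH p (y + 1))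

theorem BB_ne (n : ℕ) : ((BB p n : ℕ) : ZMod p) ≠ 0 := by
  intro h
  exact BB_ndvd p n ((ZMod.natCast_eq_zero_iff _ _).1 h)

variable (γ : ℕ → ℤ_[p]) (hγ : ∀ n, ((NN n : ℕ) : ℤ_[p]) ^ 2 = ((2 * n).factorial : ℤ_[p]) * γ n)

include hγ

theorem gam_zero : γ 0 = 1 := by
  have := hγ 0
  simpa [NN] using this.symm

theorem gam_rec (n : ℕ) : (2 * (n : ℤ_[p]) + 1) * (2 * n + 2) * γ (n + 1) = (4 * n + 1) ^ 2 * γ n := by
  have h1 := hγ n
  have h2 := hγ (n + 1)
  rw [NN_succ, show 2 * (n + 1) = 2 * n + 1 + 1 by ring, Nat.factorial_succ, Nat.factorial_succ] at h2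
  push_cast at h2
  have h3 : ((2 * n).factorial : ℤ_[p]) ≠ 0 := by exact_mod_cast (Nat.factorial_pos _).ne'
  apply mul_left_cancel₀ h3
  linear_combination (-1) * h2 + (4 * (n : ℤ_[p]) + 1) ^ 2 * h1

include hpm

theorem gam_lo (a b : ℕ) (hb : b ≤ m) :
    (BB p (2 * (p * a + b)) : ℤ_[p]) * γ (p * a + b) = (AA p (p * a + b) : ℤ_[p]) ^ 2 * γ a := by
  have hp0 := hp.1.pos
  have hdiv : ∀ x q r, x = p * q + r → r < p → x / p = q := by
    intro x q r h hr
    rw [h, Nat.mul_add_div hp0, Nat.div_eq_of_lt hr, add_zero]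
  have h2a : p * (2 * a) = 2 * (p * a) := by ring
  set n := p * a + b with hn
  have e1 := fac_split p hp0 (2 * n)
  have e2 := NN_split p m hpm n
  have t1 : (n + 3 * m) / p = a := hdiv _ a (b + 3 * m) (by omega) (by omega)
  have t2 : (2 * n) / p = 2 * a := hdiv _ (2 * a) (2 * b) (by omega) (by omega)
  rw [t1] at e2
  rw [t2] at e1
  have h1 := hγ n
  have h2 := hγ a
  rw [e1, e2] at h1
  push_cast at h1
  have h3 : ((2 * a).factorial : ℤ_[p]) ≠ 0 := by exact_mod_cast (Nat.factorial_pos _).ne'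
  have h4 : (p : ℤ_[p]) ^ (2 * a) ≠ 0 := pow_ne_zero _ (by exact_mod_cast hp.1.ne_zero)
  apply mul_left_cancel₀ (mul_ne_zero h3 h4)
  linear_combination (-1) * h1 + (AA p n : ℤ_[p]) ^ 2 * (p : ℤ_[p]) ^ (2 * a) * h2

theorem gam_hi (a b : ℕ) (hb : m < b) (hbp : b < p) :
    ∃ t, (BB p (2 * (p * a + b)) : ℤ_[p]) * γ (p * a + b) = p * t := by
  have hp0 := hp.1.pos
  have hdiv : ∀ x q r, x = p * q + r → r < p → x / p = q := by
    intro x q r h hr
    rw [h, Nat.mul_add_div hp0, Nat.div_eq_of_lt hr, add_zero]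
  have h2a : p * (2 * a) = 2 * (p * a) := by ring
  set n := p * a + b with hn
  have e1 := fac_split p hp0 (2 * n)
  have e2 := NN_split p m hpm n
  have t1 : (n + 3 * m) / p = a + 1 := hdiv _ (a + 1) (b - m - 1) (by rw [Nat.mul_add, mul_one]; omega) (by omega)
  rw [t1] at e2
  have h1 := hγ n
  have h2 := hγ (a + 1)
  have hf : (2 * (a + 1)).factorial = (2 * a + 2) * ((2 * a + 1) * (2 * a).factorial) := by
    rw [show 2 * (a + 1) = 2 * a + 1 + 1 by ring, Nat.factorial_succ, Nat.factorial_succ]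
  rw [hf] at h2
  push_cast at h2
  have h3 : ((2 * a).factorial : ℤ_[p]) ≠ 0 := by exact_mod_cast (Nat.factorial_pos _).ne'
  have hpne : (p : ℤ_[p]) ≠ 0 := by exact_mod_cast hp.1.ne_zero
  by_cases hb2 : b ≤ 2 * m
  · have t2 : (2 * n) / p = 2 * a := hdiv _ (2 * a) (2 * b) (by omega) (by omega)
    rw [t2] at e1
    rw [e1, e2] at h1
    push_cast at h1
    refine ⟨(AA p n : ℤ_[p]) ^ 2 * p * ((2 * a + 2) * (2 * a + 1)) * γ (a + 1), ?_⟩
    have h4 : (p : ℤ_[p]) ^ (2 * a) ≠ 0 := pow_ne_zero _ hpne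
    apply mul_left_cancel₀ (mul_ne_zero h3 h4)
    linear_combination (-1) * h1 + (AA p n : ℤ_[p]) ^ 2 * (p : ℤ_[p]) ^ (2 * a + 2) * h2
  · have t2 : (2 * n) / p = 2 * a + 1 :=
      hdiv _ (2 * a + 1) (2 * b - p) (by rw [Nat.mul_add p (2 * a) 1, mul_one]; omega) (by omega)
    rw [t2] at e1
    rw [e1, e2, Nat.factorial_succ] at h1
    push_cast at h1
    refine ⟨(AA p n : ℤ_[p]) ^ 2 * (2 * a + 2) * γ (a + 1), ?_⟩
    have h4 : (p : ℤ_[p]) ^ (2 * a + 1) ≠ 0 := pow_ne_zero _ hpne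
    have h5 : (2 * (a : ℤ_[p]) + 1) ≠ 0 := by
      have : ((2 * a + 1 : ℕ) : ℤ_[p]) ≠ 0 := by exact_mod_cast (by omega : 2 * a + 1 ≠ 0)
      push_cast at this; exact this
    apply mul_left_cancel₀ (mul_ne_zero (mul_ne_zero h5 h3) h4)
    linear_combination (-1) * h1 + (AA p n : ℤ_[p]) ^ 2 * (p : ℤ_[p]) ^ (2 * a + 2) * h2

theorem luc_hi (a b : ℕ) (hb : m < b) (hbp : b < p) : PadicInt.toZMod (γ (p * a + b)) = 0 := by
  obtain ⟨t, ht⟩ := gam_hi p m hpm γ hγ a b hb hbp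
  have h := congrArg PadicInt.toZMod ht
  rw [map_mul, map_mul, map_natCast, map_natCast, CharP.cast_eq_zero (ZMod p) p, zero_mul] at h
  exact (mul_eq_zero.1 h).resolve_left (BB_ne p _)

theorem luc_lo (a b : ℕ) (hb : b ≤ m) :
    PadicInt.toZMod (γ (p * a + b)) = PadicInt.toZMod (γ a) * PadicInt.toZMod (γ b) := by
  have h1 := congrArg PadicInt.toZMod (gam_lo p m hpm γ hγ a b hb)
  have h2 := congrArg PadicInt.toZMod (gam_lo p m hpm γ hγ 0 b hb)
  rw [map_mul, map_mul, map_natCast, map_pow, map_natCast] at h1 h2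
  rw [gam_zero p γ hγ, map_one, mul_zero, zero_add] at h2
  rw [show 2 * (p * a + b) = p * (2 * a) + 2 * b by ring, BB_mul, AA_mul, BB_p, AA_p p m hpm] at h1
  apply mul_left_cancel₀ (BB_ne p (2 * b))
  have e1 : ((-1 : ZMod p)) ^ (2 * a) = 1 := by rw [pow_mul]; simp
  rw [e1, one_mul, mul_pow, ← pow_mul, mul_comm a 2, e1, one_mul] at h1
  rw [h1]
  linear_combination (-PadicInt.toZMod (γ a)) * h2

end G

end V11294.Th
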