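import Pool.Agent.V11294.Th.Op
import Pool.Agent.V11294.Th.Luc

open Finset PowerSeries

namespace V11294.Th

/-- the even power series with given coefficients -/
noncomputable def evS {R : Type*} [Semiring R] (g : ℕ → R) : R⟦X⟧ :=
  PowerSeries.mk fun n => if Even n then g (n / 2) else 0

section C
variable (p m : ℕ) [hp : Fact p.Prime] (hpm : p = 4 * m + 1)

theorem coeff_pow_p (f : (ZMod p)⟦X⟧) (n : ℕ) :
    coeff n (f ^ p) = if p ∣ n then coeff (n / p) f else 0 := by
  have h0 : p ≠ 0 := hp.1.ne_zero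
  have h1 : (PowerSeries.expand p h0 f) = f ^ p := by
    have h2 := MvPowerSeries.map_frobenius_expand (σ := Unit) (R := ZMod p) p h0 (f := f)
    rw [ZMod.frobenius_zmod] at h2
    rw [← h2]
    change PowerSeries.expand p h0 f = (MvPowerSeries.map (RingHom.id (ZMod p))) (MvPowerSeries.expand p h0 f)
    rw [MvPowerSeries.map_id]
    rfl
  rw [← h1, PowerSeries.coeff_expand]

/-- the truncated polynomial -/
noncomputable def PP (g : ℕ → ZMod p) : Polynomial (ZMod p) :=
  ∑ b ∈ range (m + 1), Polynomial.C (g b) * Polynomial.X ^ (2 * b)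

theorem coeff_PP (g : ℕ → ZMod p) (k : ℕ) :
    (PP p m g).coeff k = if Even k ∧ k ≤ 2 * m then g (k / 2) else 0 := by
  unfold PP
  rw [Polynomial.finsetSum_coeff]
  simp only [Polynomial.coeff_C_mul, Polynomial.coeff_X_pow]
  by_cases h : Even k ∧ k ≤ 2 * m
  · obtain ⟨⟨c, hc⟩, h2⟩ := h
    rw [if_pos ⟨⟨c, hc⟩, h2⟩]
    rw [Finset.sum_eq_single c]
    · rw [if_pos (by omega), mul_one, show k / 2 = c by omega]
    · intro b _ hb
      rw [if_neg (by omega), mul_zero]
    · intro hc'
      exact absurd (Finset.mem_range.2 (by omega)) hc'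
  · rw [if_neg h]
    apply Finset.sum_eq_zero
    intro b hb
    have hb' := Finset.mem_range.1 hb
    rw [if_neg, mul_zero]
    intro hk
    exact h ⟨⟨b, by omega⟩, by omega⟩

theorem natDegree_PP (g : ℕ → ZMod p) : (PP p m g).natDegree ≤ 2 * m := by
  unfold PP
  apply Polynomial.natDegree_sum_le_of_forall_le
  intro b hb
  have hb' := Finset.mem_range.1 hb
  exact le_trans (Polynomial.natDegree_C_mul_X_pow_le _ _) (by omega)

variable (g : ℕ → ZMod p) (g0 : g 0 = 1)
    (hg : ∀ b : ℕ, (2 * (b : ZMod p) + 1) * (2 * b + 2) * g (b + 1) = (4 * b + 1) ^ 2 * g b)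
    (hhi : ∀ a b, m < b → b < p → g (p * a + b) = 0)
    (hlo : ∀ a b, b ≤ m → g (p * a + b) = g a * g b)

include hpm hg in
theorem ell_PP : ell (PP p m g) = 0 := by
  ext j
  rw [coeff_ell, coeff_PP, coeff_PP, Polynomial.coeff_zero]
  rcases Nat.even_or_odd j with ⟨b, hb⟩ | ⟨b, hb⟩
  · subst hb
    by_cases h1 : b + b + 2 ≤ 2 * m
    · rw [if_pos ⟨⟨b + 1, by ring⟩, h1⟩, if_pos ⟨⟨b, rfl⟩, by omega⟩]
      rw [show (b + b + 2) / 2 = b + 1 by omega, show (b + b) / 2 = b by omega]
      have := hg b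
      push_cast
      linear_combination this
    · rw [if_neg (by omega)]
      by_cases h2 : b + b ≤ 2 * m
      · rw [if_pos ⟨⟨b, rfl⟩, by omega⟩]
        have hbm : b = m := by omega
        subst hbm
        have h4 := m4 p b hpm
        push_cast
        linear_combination (-(4 * (b : ZMod p) + 1) * g ((b + b) / 2)) * h4
      · rw [if_neg (by omega)]; ring
  · rw [if_neg, if_neg]
    · ring
    · rintro ⟨⟨c, hc⟩, _⟩; omega
    · rintro ⟨⟨c, hc⟩, _⟩; omega

include hpm g0 hhi hlo in
theorem evS_eq : evS g = ((PP p m g : Polynomial (ZMod p)) : (ZMod p)⟦X⟧) * (evS g) ^ p := by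
  have hp0 := hp.1.pos
  ext n
  rw [coeff_mul, Finset.sum_eq_single (n % p, p * (n / p))]
  · rw [Polynomial.coeff_coe, coeff_PP, coeff_pow_p, if_pos (Dvd.intro _ rfl),
      Nat.mul_div_cancel_left _ hp0]
    simp only [evS, coeff_mk]
    set r := n % p with hr
    set q := n / p with hq
    have hn : n = p * q + r := (Nat.div_add_mod n p).symm
    have hrp : r < p := Nat.mod_lt _ hp0
    rcases Nat.even_or_odd r with ⟨b, hb⟩ | ⟨b, hb⟩
    · rcases Nat.even_or_odd q with ⟨a, ha⟩ | ⟨a, ha⟩
      · have hne : n = 2 * (p * a + b) := by rw [hn, ha, hb]; ring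
        have hEn : Even n := ⟨p * a + b, by omega⟩
        have hEq : Even q := ⟨a, ha⟩
        rw [if_pos hEn, if_pos hEq]
        rw [show n / 2 = p * a + b by omega, show q / 2 = a by omega]
        by_cases hbm : b ≤ m
        · rw [if_pos ⟨⟨b, hb⟩, by omega⟩, show r / 2 = b by omega, hlo a b hbm]; ring
        · rw [if_neg (by omega), hhi a b (by omega) (by omega)]; ring
      · have h1 : ¬ Even q := by rw [Nat.not_even_iff_odd]; exact ⟨a, ha⟩
        have h2 : ¬ Even n := by
          rw [Nat.not_even_iff_odd]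
          refine ⟨p * a + 2 * m + b, ?_⟩
          rw [hn, ha, hb, mul_add, mul_one]
          have : p * (2 * a) = 2 * (p * a) := by ring
          omega
        rw [if_neg h1, if_neg h2, mul_zero]
    · have h1 : ¬ Even r := by rw [Nat.not_even_iff_odd]; exact ⟨b, hb⟩
      have h3 : ¬ (Even r ∧ r ≤ 2 * m) := fun h => h1 h.1
      rw [if_neg h3, zero_mul]
      rcases Nat.even_or_odd q with ⟨a, ha⟩ | ⟨a, ha⟩
      · have h2 : ¬ Even n := by
          rw [Nat.not_even_iff_odd]
          refine ⟨p * a + b, ?_⟩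
          rw [hn, ha, hb, mul_add]
          omega
        rw [if_neg h2]
      · have hne : n = 2 * (p * a + (2 * m + 1 + b)) := by
          rw [hn, ha, hb, mul_add, mul_one]
          have : p * (2 * a) = 2 * (p * a) := by ring
          omega
        have hEn : Even n := ⟨p * a + (2 * m + 1 + b), by omega⟩
        rw [if_pos hEn, show n / 2 = p * a + (2 * m + 1 + b) by omega]
        exact hhi a _ (by omega) (by omega)
  · rintro ⟨i, j⟩ hij hne
    rw [Finset.HasAntidiagonal.mem_antidiagonal] at hij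
    simp only at hij ⊢
    rw [Polynomial.coeff_coe, coeff_PP, coeff_pow_p]
    by_cases h1 : Even i ∧ i ≤ 2 * m
    · by_cases h2 : p ∣ j
      · exfalso
        apply hne
        obtain ⟨c, hc⟩ := h2
        have hi : i < p := by omega
        have e1 : n % p = i := by
          rw [← hij, hc, Nat.add_mul_mod_self_left, Nat.mod_eq_of_lt hi]
        have e2 : n / p = c := by
          rw [← hij, hc, Nat.add_mul_div_left _ _ hp0, Nat.div_eq_of_lt hi, zero_add]
        rw [e1, e2, hc]
      · rw [if_neg h2, mul_zero]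
    · rw [if_neg h1, zero_mul]
  · intro h
    exfalso
    apply h
    rw [Finset.HasAntidiagonal.mem_antidiagonal]
    have := Nat.div_add_mod n p
    simp only
    omega

include hpm g0 hg hhi hlo in
theorem op_final (f : (ZMod p)⟦X⟧) :
    (DD (evS g))^[p] f = C (((2 * m).choose m : ZMod p) ^ 2) * DD (evS g) f := by
  have hm := m_pos p m hpm
  obtain ⟨W, hW⟩ := exists_wronsk (F := ZMod p) p (by omega) (2 * m) (by omega) (by omega) (PP p m g)
    (natDegree_PP p m g) (ell_PP p m hpm g hg)
  have hval : (PP p m g).eval (1/2) * ((2 * m).choose m : ZMod p) = 1 := by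
    have h1 := pc_sum p m hpm
    have h2 : (PP p m g).eval (1/2) = ∑ b ∈ range (m + 1), pc p m b * (1 / 2) ^ (2 * b) := ?_
    · rw [h2]; exact h1
    unfold PP
    rw [Polynomial.eval_finsetSum]
    apply Finset.sum_congr rfl
    intro b hb
    have hb' := Finset.mem_range.1 hb
    rw [Polynomial.eval_mul, Polynomial.eval_C, Polynomial.eval_pow, Polynomial.eval_X,
      pc_eq p m hpm g g0 hg b (by omega)]
  have hW' : (1 - 4 * X ^ 2) * (((PP p m g : Polynomial (ZMod p)) : (ZMod p)⟦X⟧) *
      PowerSeries.derivative (ZMod p) (W : (ZMod p)⟦X⟧)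
        - (W : (ZMod p)⟦X⟧) * PowerSeries.derivative (ZMod p) ((PP p m g : Polynomial (ZMod p)) : (ZMod p)⟦X⟧))
        = ((PP p m g : Polynomial (ZMod p)) : (ZMod p)⟦X⟧) ^ 2 - C (((PP p m g).eval (1/2)) ^ 2) := by
    have h1 := congrArg (fun q : Polynomial (ZMod p) => (q : (ZMod p)⟦X⟧)) hW
    simp only [Polynomial.coe_mul, Polynomial.coe_sub, Polynomial.coe_pow, Polynomial.coe_C, Polynomial.coe_one,
      Polynomial.coe_X] at h1
    rw [PowerSeries.derivative_coe, PowerSeries.derivative_coe, ← h1]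
    congr 3
    have h4 : ((4 : Polynomial (ZMod p)) : (ZMod p)⟦X⟧) = 4 := by
      rw [← map_ofNat Polynomial.C, Polynomial.coe_C, map_ofNat]
    rw [h4]
  have hop := op_charp p (by omega) (evS g) (PP p m g : Polynomial (ZMod p)) (W : (ZMod p)⟦X⟧)
    (((PP p m g).eval (1/2)) ^ 2) ?_ ?_ (evS_eq p m hpm g g0 hhi hlo) hW' f
  · rw [← hop, ← mul_assoc, ← map_mul]
    have : ((2 * m).choose m : ZMod p) ^ 2 * (PP p m g).eval (1/2) ^ 2 = 1 := by
      rw [← mul_pow, mul_comm, hval, one_pow]
    rw [this, map_one, one_mul]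
  · rw [← PowerSeries.coeff_zero_eq_constantCoeff_apply]
    simp [evS, g0]
  · rw [← PowerSeries.coeff_zero_eq_constantCoeff_apply, Polynomial.coeff_coe, coeff_PP]
    simp [g0]

end C

end V11294.Th
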