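import Mathlib

open Finset

namespace V11294.Th

section Leib
variable {R A : Type*} [CommRing R] [CommRing A] [Algebra R A]

theorem iter_leibniz (D : Derivation R A A) (n : ℕ) (a b : A) :
    D^[n] (a * b) = ∑ ij ∈ antidiagonal n, n.choose ij.1 • (D^[ij.1] a * D^[ij.2] b) := by
  induction n with
  | zero => simp
  | succ n ih =>
    rw [sum_antidiagonal_choose_succ_nsmul (M := A) (fun i j => D^[i] a * D^[j] b) n]
    simp only [Function.iterate_succ_apply', ih, map_sum, map_nsmul, Derivation.leibniz, smul_add,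
      sum_add_distrib]
    refine congr_arg₂ (· + ·) ?_ ?_
    · refine sum_congr rfl fun ⟨i, j⟩ hij ↦ ?_
      simp only [smul_eq_mul]
    · refine sum_congr rfl fun ⟨i, j⟩ hij ↦ ?_
      simp only [smul_eq_mul]
      rw [n.choose_symm_of_eq_add (mem_antidiagonal.1 hij).symm]
      ring

variable (p : ℕ) [hp : Fact p.Prime] [CharP A p]

theorem iter_p_leibniz (D : Derivation R A A) (a b : A) :
    D^[p] (a * b) = a * D^[p] b + b * D^[p] a := by
  have hp1 := hp.1.one_lt
  rw [iter_leibniz]
  obtain ⟨q, rfl⟩ : ∃ q, p = q + 1 + 1 := ⟨p - 2, by omega⟩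
  rw [Finset.Nat.sum_antidiagonal_eq_sum_range_succ_mk, Finset.sum_range_succ, Finset.sum_range_succ']
  have : ∑ k ∈ range (q + 1), (q+1+1).choose (k+1) • (D^[k+1] a * D^[q+1+1 - (k+1)] b) = 0 := by
    apply Finset.sum_eq_zero
    intro k hk
    have hk' := Finset.mem_range.1 hk
    have hd : (q+1+1) ∣ (q+1+1).choose (k+1) := hp.1.dvd_choose_self (by omega) (by omega)
    rw [nsmul_eq_mul, (CharP.cast_eq_zero_iff A (q+1+1) _).2 hd, zero_mul]
  simp only at this ⊢
  rw [this]
  simp
  ring

/-- the p-th iterate as a derivation -/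
noncomputable def powD (D : Derivation R A A) : Derivation R A A where
  toLinearMap := (D : A →ₗ[R] A) ^ p
  map_one_eq_zero' := by
    rw [Module.End.pow_apply]
    obtain ⟨q, hq⟩ : ∃ q, p = q + 1 := ⟨p - 1, by have := hp.1.one_lt; omega⟩
    rw [hq, Function.iterate_succ_apply]
    have : (⇑(D : A →ₗ[R] A)) 1 = 0 := D.map_one_eq_zero
    rw [this]
    induction q with
    | zero => rfl
    | succ q ih => 
      clear hq ih
      rw [← Module.End.pow_apply, map_zero]
  leibniz' := by
    intro a b
    rw [Module.End.pow_apply, Module.End.pow_apply, Module.End.pow_apply]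
    have := iter_p_leibniz p D a b
    simpa [smul_eq_mul] using this

theorem powD_apply (D : Derivation R A A) (a : A) : powD p D a = D^[p] a := by
  change ((D : A →ₗ[R] A) ^ p) a = _
  rw [Module.End.pow_apply]
  rfl

end Leib

section PS
open PowerSeries
variable {F : Type*} [Field F]

theorem der_eq (E : Derivation F F⟦X⟧ F⟦X⟧) (f : F⟦X⟧) :
    E f = E X * PowerSeries.derivative F f := by
  set E' : Derivation F F⟦X⟧ F⟦X⟧ := E - (E X) • PowerSeries.derivative F with hE'
  have h0 : E' X = 0 := by
    simp [hE']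
  have h1 : ∀ q : Polynomial F, E' (q : F⟦X⟧) = 0 := by
    intro q
    have : (q : F⟦X⟧) = Polynomial.aeval (X : F⟦X⟧) q := by
      rw [Polynomial.aeval_def, Polynomial.eval₂_eq_sum]
      conv_lhs => rw [← Polynomial.sum_monomial_eq q]
      rw [Polynomial.sum, Polynomial.sum]
      ext n
      simp only [Polynomial.coeff_coe, Polynomial.finsetSum_coeff, map_sum]
      apply Finset.sum_congr rfl
      intro i hi
      rw [show (algebraMap F F⟦X⟧) (q.coeff i) = PowerSeries.C (q.coeff i) from rfl, PowerSeries.coeff_C_mul,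
        PowerSeries.coeff_X_pow, Polynomial.coeff_monomial]
      simp [eq_comm]
    rw [this, Derivation.map_aeval, h0, smul_zero]
  have h2 : E' f = 0 := by
    ext n
    rw [map_zero]
    have h3 := PowerSeries.eq_X_pow_mul_shift_add_trunc (n+1) f
    rw [h3, map_add, h1, add_zero, Derivation.leibniz, Derivation.leibniz_pow, h0]
    simp [PowerSeries.coeff_X_pow_mul']
  have h3 : E' f = E f - E X * PowerSeries.derivative F f := by
    simp [hE']
  rw [h3] at h2
  exact sub_eq_zero.1 h2

end PS

end V11294.Th
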