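import Pool.Agent.V11294.Th.Form

open Finset PowerSeries

namespace V11294.Th

section Int

/-- Hurwitz-integrality -/
def HI (f : ℚ⟦X⟧) : Prop := ∀ n, ∃ z : ℤ, (n.factorial : ℚ) * coeff n f = z

theorem HI_mul {f g : ℚ⟦X⟧} (hf : HI f) (hg : HI g) : HI (f * g) := by
  choose a ha using hf
  choose b hb using hg
  intro n
  refine ⟨∑ x ∈ antidiagonal n, ((x.1 + x.2).choose x.1 : ℤ) * a x.1 * b x.2, ?_⟩
  rw [coeff_mul, Finset.mul_sum]
  push_cast
  apply Finset.sum_congr rfl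
  rintro ⟨i, j⟩ hij
  rw [HasAntidiagonal.mem_antidiagonal] at hij
  simp only at hij ⊢
  rw [← ha, ← hb, ← hij, ← Nat.add_choose_mul_factorial_mul_factorial i j, Nat.choose_symm_add]
  push_cast
  ring

theorem HI_der {f : ℚ⟦X⟧} (hf : HI f) : HI (PowerSeries.derivative ℚ f) := by
  intro n
  obtain ⟨z, hz⟩ := hf (n + 1)
  refine ⟨z, ?_⟩
  rw [← hz, coeff_derivative, Nat.factorial_succ]
  push_cast; ring

theorem HI_of_der {f : ℚ⟦X⟧} (h0 : constantCoeff f = 0) (hf : HI (PowerSeries.derivative ℚ f)) : HI f := by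
  intro n
  rcases n with _ | n
  · refine ⟨0, ?_⟩
    rw [PowerSeries.coeff_zero_eq_constantCoeff_apply, h0]; simp
  · obtain ⟨z, hz⟩ := hf n
    refine ⟨z, ?_⟩
    rw [← hz, coeff_derivative, Nat.factorial_succ]
    push_cast; ring

theorem HI_UU (u : ℕ → ℤ) : HI (UU u) := by
  intro n
  rcases Nat.even_or_odd' n with ⟨k, rfl | rfl⟩
  · refine ⟨0, ?_⟩
    rw [UU, coeff_odS_even]; simp
  · refine ⟨u k, ?_⟩
    rw [UU, coeff_odS_odd]
    have h5 : ((2 * k + 1).factorial : ℚ) ≠ 0 := by exact_mod_cast (Nat.factorial_pos _).ne'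
    field_simp

theorem HI_pow (u : ℕ → ℤ) (j : ℕ) : HI (C (1 / (j.factorial : ℚ)) * UU u ^ j) := by
  induction j with
  | zero =>
    intro n
    rcases n with _ | n
    · exact ⟨1, by simp⟩
    · exact ⟨0, by simp [PowerSeries.coeff_one]⟩
  | succ j ih =>
    apply HI_of_der
    · have h1 : constantCoeff (UU u) = 0 := by
        have := U_X u
        rwa [PowerSeries.X_dvd_iff] at this
      rw [map_mul, map_pow, h1]; simp
    · have e : PowerSeries.derivative ℚ (C (1 / ((j + 1).factorial : ℚ)) * UU u ^ (j + 1))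
          = (C (1 / (j.factorial : ℚ)) * UU u ^ j) * PowerSeries.derivative ℚ (UU u) := by
        rw [Derivation.leibniz, Derivation.leibniz_pow, PowerSeries.derivative_C]
        simp only [smul_eq_mul, nsmul_eq_mul, mul_zero, add_zero, Nat.add_sub_cancel]
        have h1 : (C (1 / (j.factorial : ℚ)) : ℚ⟦X⟧) = C (1 / ((j + 1).factorial : ℚ)) * ((j + 1 : ℕ) : ℚ⟦X⟧) := by
          have h2 : ((j + 1 : ℕ) : ℚ⟦X⟧) = C ((j + 1 : ℕ) : ℚ) := by simp
          rw [h2, ← map_mul]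
          congr 1
          rw [Nat.factorial_succ]
          have h5 : ((j).factorial : ℚ) ≠ 0 := by exact_mod_cast (Nat.factorial_pos _).ne'
          push_cast
          field_simp
        rw [h1]; ring
      rw [e]
      exact HI_mul ih (HI_der (HI_UU u))

theorem rr_int (u : ℕ → ℤ) (n k : ℕ) (hk : k ≤ n) : ∃ z : ℤ, rr u n k = z := by
  obtain ⟨z, hz⟩ := HI_pow u (2 * k) (2 * n)
  refine ⟨2 ^ (n - k) * z, ?_⟩
  push_cast
  rw [← hz, coeff_C_mul]
  unfold rr
  have h6 : (2 : ℚ) ^ ((n : ℤ) - (k : ℤ)) = 2 ^ (n - k) := by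
    rw [← zpow_natCast]; congr 1; omega
  rw [h6]; ring

theorem v_int (v : ℕ → ℚ) (hv0 : v 0 = 1)
    (hv : ∀ n, 1 ≤ n → v n = 2 ^ (n - 1) * (Pi3 n : ℚ) - 1 / 2 * ∑ m ∈ Ico 1 n, ((2 * n).choose (2 * m) : ℚ) * v m * v (n - m))
    (n : ℕ) : ∃ z : ℤ, v n = z := by
  induction n using Nat.strong_induction_on with
  | _ n ih =>
  rcases Nat.eq_zero_or_pos n with h0 | h0
  · exact ⟨1, by rw [h0, hv0]; simp⟩
  · choose! a ha using ih
    set S : ℤ := ∑ m ∈ Ico 1 n, ((2 * n).choose (2 * m) : ℤ) * a m * a (n - m) with hS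
    have h1 : ∑ m ∈ Ico 1 n, ((2 * n).choose (2 * m) : ℚ) * v m * v (n - m) = (S : ℚ) := by
      rw [hS]; push_cast
      apply Finset.sum_congr rfl
      intro m hm
      rw [Finset.mem_Ico] at hm
      rw [ha m hm.2, ha (n - m) (by omega)]
    have h2 : (2 : ℤ) ∣ S := by
      have h3 : ((S : ℤ) : ZMod 2) = 0 := by
        rw [hS]; push_cast
        apply Finset.sum_involution (fun m _ => n - m)
        · intro m hm
          rw [Finset.mem_Ico] at hm
          have e1 : (2 * n).choose (2 * (n - m)) = (2 * n).choose (2 * m) := by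
            rw [show 2 * (n - m) = 2 * n - 2 * m by omega]
            exact Nat.choose_symm (by omega)
          rw [e1, show n - (n - m) = m by omega]
          have e2 : ∀ x : ZMod 2, x + x = 0 := by decide
          have e3 : ((2 * n).choose (2 * m) : ZMod 2) * (a (n - m) : ZMod 2) * (a m : ZMod 2)
            = ((2 * n).choose (2 * m) : ZMod 2) * (a m : ZMod 2) * (a (n - m) : ZMod 2) := by ring
          rw [e3]; exact e2 _
        · intro m hm hne heq
          rw [Finset.mem_Ico] at hm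
          apply hne
          have e1 : 2 * n = 2 * (2 * m) := by omega
          have e2 : 2 ∣ (2 * n).choose (2 * m) := by
            rw [e1]
            exact Nat.two_dvd_centralBinom_of_one_le (by omega)
          have e3 : ((2 * n).choose (2 * m) : ZMod 2) = 0 := (ZMod.natCast_eq_zero_iff _ _).2 e2
          rw [e3]; ring
        · intro m hm
          rw [Finset.mem_Ico] at hm ⊢
          omega
        · intro m hm
          rw [Finset.mem_Ico] at hm
          omega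
      exact (ZMod.intCast_zmod_eq_zero_iff_dvd S 2).1 h3
    obtain ⟨t, ht⟩ := h2
    refine ⟨2 ^ (n - 1) * Pi3 n - t, ?_⟩
    rw [hv n h0, h1, ht]
    push_cast; ring

theorem d_int (u : ℕ → ℤ) (v d : ℕ → ℚ) (hv0 : v 0 = 1)
    (hv : ∀ n, 1 ≤ n → v n = 2 ^ (n - 1) * (Pi3 n : ℚ) - 1 / 2 * ∑ m ∈ Ico 1 n, ((2 * n).choose (2 * m) : ℚ) * v m * v (n - m))
    (hd0 : d 0 = 1) (hd : ∀ n, 1 ≤ n → d n = v n - ∑ k ∈ range n, rr u n k * d k) (n : ℕ) :
    ∃ z : ℤ, d n = z := by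
  induction n using Nat.strong_induction_on with
  | _ n ih =>
  rcases Nat.eq_zero_or_pos n with h0 | h0
  · exact ⟨1, by rw [h0, hd0]; simp⟩
  · choose! a ha using ih
    obtain ⟨w, hw⟩ := v_int v hv0 hv n
    have hr : ∀ k, k ∈ range n → ∃ z : ℤ, rr u n k = z := fun k hk => rr_int u n k (Finset.mem_range.1 hk).le
    choose! r hr' using hr
    refine ⟨w - ∑ k ∈ range n, r k * a k, ?_⟩
    rw [hd n h0, hw]
    push_cast
    congr 1
    apply Finset.sum_congr rfl
    intro k hk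
    rw [hr' k hk, ha k (Finset.mem_range.1 hk)]

end Int

section Lift
variable (p m : ℕ) [hp : Fact p.Prime] (hpm : p = 4 * m + 1)

theorem sqrt_lift (hp2 : p ≠ 2) (G : ℤ_[p]⟦X⟧) (A : ℚ_[p]⟦X⟧) (hA0 : constantCoeff A = 1)
    (hA : A ^ 2 = PowerSeries.map (PadicInt.Coe.ringHom (p := p)) G) :
    ∃ F : ℤ_[p]⟦X⟧, PowerSeries.map (PadicInt.Coe.ringHom (p := p)) F = A := by
  have h2u : IsUnit (2 : ℤ_[p]) := by
    rw [PadicInt.isUnit_iff]
    have h1 := (PadicInt.norm_int_lt_one_iff_dvd (p := p) (2 : ℤ))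
    have h2 : ¬ ‖((2 : ℤ) : ℤ_[p])‖ < 1 := by
      rw [h1]
      intro h
      have h3 : p ∣ 2 := by exact_mod_cast h
      exact hp2 ((Nat.prime_dvd_prime_iff_eq hp.1 Nat.prime_two).1 h3)
    have h3 : ‖(2 : ℤ_[p])‖ ≤ 1 := PadicInt.norm_le_one _
    have h4 : (((2 : ℤ)) : ℤ_[p]) = (2 : ℤ_[p]) := by norm_num
    rw [h4] at h2
    exact le_antisymm h3 (not_lt.1 h2)
  obtain ⟨w, hw⟩ := h2u.exists_right_inv
  have hmem : ∀ n, ∃ x : ℤ_[p], (x : ℚ_[p]) = coeff n A := by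
    intro n
    induction n using Nat.strong_induction_on with
    | _ n ih =>
    rcases Nat.eq_zero_or_pos n with h0 | h0
    · refine ⟨1, ?_⟩
      rw [h0, PowerSeries.coeff_zero_eq_constantCoeff_apply, hA0]; simp
    · choose! x hx using ih
      have h1 := congrArg (coeff n) hA
      rw [sq, coeff_mul, coeff_map] at h1
      have m1 : (0, n) ∈ antidiagonal n := by rw [HasAntidiagonal.mem_antidiagonal]; simp
      have m2 : (n, 0) ∈ (antidiagonal n).erase (0, n) := by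
        rw [Finset.mem_erase, HasAntidiagonal.mem_antidiagonal]
        refine ⟨?_, by simp⟩
        intro h
        rw [Prod.mk.injEq] at h
        omega
      rw [← Finset.add_sum_erase _ _ m1, ← Finset.add_sum_erase _ _ m2] at h1
      simp only at h1
      rw [PowerSeries.coeff_zero_eq_constantCoeff_apply, hA0] at h1
      have h2 : ∑ y ∈ ((antidiagonal n).erase (0, n)).erase (n, 0), coeff y.1 A * coeff y.2 A
          = ((∑ y ∈ ((antidiagonal n).erase (0, n)).erase (n, 0), x y.1 * x y.2 : ℤ_[p]) : ℚ_[p]) := by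
        rw [PadicInt.coe_sum]
        apply Finset.sum_congr rfl
        rintro ⟨i, j⟩ hij
        rw [Finset.mem_erase, Finset.mem_erase, HasAntidiagonal.mem_antidiagonal] at hij
        obtain ⟨h3, h4, h5⟩ := hij
        simp only at h5 ⊢
        have hi : i < n := by
          rcases Nat.eq_zero_or_pos j with hj | hj
          · exfalso; apply h3; rw [Prod.mk.injEq]; omega
          · omega
        have hj : j < n := by
          rcases Nat.eq_zero_or_pos i with hi | hi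
          · exfalso; apply h4; rw [Prod.mk.injEq]; omega
          · omega
        rw [PadicInt.coe_mul, hx i hi, hx j hj]
      rw [h2] at h1
      set Sg : ℤ_[p] := ∑ y ∈ ((antidiagonal n).erase (0, n)).erase (n, 0), x y.1 * x y.2 with hSg
      refine ⟨w * (coeff n G - Sg), ?_⟩
      have h3 : (2 : ℚ_[p]) * (w : ℚ_[p]) = 1 := by
        have := congrArg (PadicInt.Coe.ringHom (p := p)) hw
        rw [map_mul, map_ofNat, map_one] at this
        exact this
      have h4 : (PadicInt.Coe.ringHom (p := p)) (coeff n G) = ((coeff n G : ℤ_[p]) : ℚ_[p]) := rfl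
      rw [h4] at h1
      push_cast
      linear_combination (-(w : ℚ_[p])) * h1 + coeff n A * h3
  choose x hx using hmem
  refine ⟨PowerSeries.mk x, ?_⟩
  ext n
  rw [coeff_map, coeff_mk]
  exact hx n

end Lift

section Main
variable (u : ℕ → ℤ)
  (hu : ∀ n, u n = Pi1 n - ∑ m ∈ range n, ((2 * n + 1).choose (2 * m + 1) : ℤ) * Pi3 (n - m) * u m)
  (v d : ℕ → ℚ) (hv0 : v 0 = 1)
  (hv : ∀ n, 1 ≤ n → v n = 2 ^ (n - 1) * (Pi3 n : ℚ) - 1 / 2 * ∑ m ∈ Ico 1 n, ((2 * n).choose (2 * m) : ℚ) * v m * v (n - m))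
  (hd0 : d 0 = 1)
  (hd : ∀ n, 1 ≤ n → d n = v n - ∑ k ∈ range n, rr u n k * d k)

include hu hv0 hv hd0 hd in
theorem main (dZ : ℕ → ℤ) (hdZ : ∀ n, (dZ n : ℚ) = d n) (p m : ℕ) [hp : Fact p.Prime] (hpm : p = 4 * m + 1)
    (k n : ℕ) (hn : k + 1 ≤ 2 * n) :
    ((p : ℤ) ^ (k + 1)) ∣ dZ (n + 2 * m ^ 2 * p ^ k) - dZ n := by
  have hp2 : p ≠ 2 := by omega
  have hγe : ∀ n, ∃ g : ℤ_[p], ((NN n : ℕ) : ℤ_[p]) ^ 2 = ((2 * n).factorial : ℤ_[p]) * g := fun n => dvd_N p m hpm n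
  choose γ hγ using hγe
  -- link G
  have hG : PowerSeries.map (PadicInt.Coe.ringHom (p := p)) (evS γ) = PowerSeries.map (Rat.castHom ℚ_[p]) G3 := by
    rw [map_evS, G3, map_evS]
    congr 1
    funext j
    have h1 := congrArg (fun z : ℤ_[p] => (z : ℚ_[p])) (hγ j)
    push_cast at h1
    have h2 : ((Rat.castHom ℚ_[p]) ((Pi3 j : ℚ) / (2 * j).factorial)) = ((NN j : ℕ) : ℚ_[p]) ^ 2 / ((2 * j).factorial : ℚ_[p]) := by
      rw [Pi3_eq]
      push_cast
      simp
    have h5 : ((2 * j).factorial : ℚ_[p]) ≠ 0 := by exact_mod_cast (Nat.factorial_pos _).ne'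
    rw [h2, eq_div_iff h5, h1, mul_comm]
    rfl
  obtain ⟨F, hF⟩ := sqrt_lift p hp2 (evS γ) (PowerSeries.map (Rat.castHom ℚ_[p]) (Fq v))
    (by
      rw [← PowerSeries.coeff_zero_eq_constantCoeff_apply, coeff_map, show (0 : ℕ) = 2 * 0 by rfl, Fq, coeff_evS_even]
      simp [hv0])
    (by rw [hG, ← map_pow, Fq_sq v hv0 hv])
  set c : ℕ → ℤ_[p] := fun j => constantCoeff ((DD (evS γ))^[j] F) with hc
  have hdc : ∀ K, ((dZ K : ℤ) : ℤ_[p]) = 2 ^ K * c (2 * K) := by
    intro K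
    have h1 := d_formula u hu v d hv0 hd0 hd K
    have h2 := congrArg (Rat.castHom ℚ_[p]) h1
    rw [map_mul] at h2
    have h3 : (Rat.castHom ℚ_[p]) (constantCoeff ((DD G3)^[2 * K] (Fq v)))
        = constantCoeff (PowerSeries.map (Rat.castHom ℚ_[p]) ((DD G3)^[2 * K] (Fq v))) := by
      rw [← PowerSeries.coeff_zero_eq_constantCoeff_apply, ← PowerSeries.coeff_zero_eq_constantCoeff_apply, coeff_map]
    have h4 : constantCoeff (PowerSeries.map (PadicInt.Coe.ringHom (p := p)) ((DD (evS γ))^[2 * K] F))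
        = ((c (2 * K) : ℤ_[p]) : ℚ_[p]) := by
      rw [← PowerSeries.coeff_zero_eq_constantCoeff_apply, coeff_map, PowerSeries.coeff_zero_eq_constantCoeff_apply]
      rfl
    rw [h3, map_DD_iter, ← hG, ← hF, ← map_DD_iter, h4, ← hdZ K] at h2
    have h5 : (((dZ K : ℤ) : ℤ_[p]) : ℚ_[p]) = ((2 ^ K * c (2 * K) : ℤ_[p]) : ℚ_[p]) := by
      have e : ((2 : ℤ_[p]) : ℚ_[p]) = 2 := rfl
      rw [PadicInt.coe_mul, PadicInt.coe_pow, e]
      simpa using h2
    exact PadicInt.ext h5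
  rw [← PadicInt.pow_p_dvd_int_iff]
  push_cast
  rw [hdc, hdc]
  have hmain := coeff_main p m hpm γ hγ F m k (2 * n) hn
  have e1 : 2 * n + (p - 1) * (m * p ^ k) = 2 * (n + 2 * m ^ 2 * p ^ k) := by
    rw [hpm, Nat.add_sub_cancel]; ring
  rw [e1] at hmain
  change (p : ℤ_[p]) ^ (k + 1) ∣ c (2 * (n + 2 * m ^ 2 * p ^ k))
    - ((((2 * m).choose m : ℕ) : ℤ_[p]) ^ 2) ^ (m * p ^ k) * c (2 * n) at hmain
  set h : ℤ_[p] := ((((2 * m).choose m : ℕ) : ℤ_[p]) ^ 2) with hh
  have hone : (p : ℤ_[p]) ^ (k + 1) ∣ (((2 : ℤ_[p]) ^ (2 * m) * h) ^ m) ^ p ^ k - 1 ^ p ^ k := by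
    apply dvd_sub_pow_of_dvd_sub
    apply dvd_of_toZMod
    have := char_one p m hpm
    rw [hh]
    simp only [map_sub, map_pow, map_mul, map_natCast, map_one, map_ofNat]
    rw [this, sub_self]
  rw [one_pow] at hone
  have e2 : (2 : ℤ_[p]) ^ (n + 2 * m ^ 2 * p ^ k) * c (2 * (n + 2 * m ^ 2 * p ^ k)) - 2 ^ n * c (2 * n)
      = 2 ^ (n + 2 * m ^ 2 * p ^ k) * (c (2 * (n + 2 * m ^ 2 * p ^ k)) - h ^ (m * p ^ k) * c (2 * n))
        + 2 ^ n * c (2 * n) * ((((2 : ℤ_[p]) ^ (2 * m) * h) ^ m) ^ p ^ k - 1) := by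
    have e3 : (((2 : ℤ_[p]) ^ (2 * m) * h) ^ m) ^ p ^ k = 2 ^ (2 * m ^ 2 * p ^ k) * h ^ (m * p ^ k) := by
      rw [← pow_mul, mul_pow, ← pow_mul]
      congr 2
      ring
    rw [e3, pow_add]; ring
  rw [e2]
  exact dvd_add (Dvd.dvd.mul_left hmain _) (Dvd.dvd.mul_left hone _)

end Main

end V11294.Th
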