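import Pool.Agent.V11294.Th.PowE

open Finset PowerSeries

namespace V11294.Th

def Pi1 (N : ℕ) : ℤ := ∏ j ∈ Finset.Icc 1 N, (4 * (j : ℤ) - 1) ^ 2
def Pi3 (N : ℕ) : ℤ := ∏ j ∈ Finset.Icc 1 N, (4 * (j : ℤ) - 3) ^ 2

theorem Pi1_succ (n : ℕ) : Pi1 (n + 1) = Pi1 n * (4 * n + 3) ^ 2 := by
  rw [Pi1, Finset.prod_Icc_succ_top (by omega), Pi1]; push_cast; ring

theorem Pi3_succ (n : ℕ) : Pi3 (n + 1) = Pi3 n * (4 * n + 1) ^ 2 := by
  rw [Pi3, Finset.prod_Icc_succ_top (by omega), Pi3]; push_cast; ring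

theorem Pi3_eq (n : ℕ) : Pi3 n = ((NN n : ℕ) : ℤ) ^ 2 := by
  induction n with
  | zero => simp [Pi3, NN]
  | succ n ih => rw [Pi3_succ, ih, NN_succ]; push_cast; ring

/-- the odd power series with given coefficients -/
noncomputable def odS {R : Type*} [Semiring R] (g : ℕ → R) : R⟦X⟧ :=
  PowerSeries.mk fun n => if Odd n then g ((n - 1) / 2) else 0

theorem coeff_evS_even {R : Type*} [Semiring R] (g : ℕ → R) (n : ℕ) : coeff (2 * n) (evS g) = g n := by
  simp [evS]

theorem coeff_evS_odd {R : Type*} [Semiring R] (g : ℕ → R) (n : ℕ) : coeff (2 * n + 1) (evS g) = 0 := by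
  simp [evS]

theorem coeff_odS_even {R : Type*} [Semiring R] (g : ℕ → R) (n : ℕ) : coeff (2 * n) (odS g) = 0 := by
  simp [odS]

theorem coeff_odS_odd {R : Type*} [Semiring R] (g : ℕ → R) (n : ℕ) : coeff (2 * n + 1) (odS g) = g n := by
  simp [odS]

theorem coeff_dd {R : Type*} [CommRing R] (f : R⟦X⟧) (j : ℕ) :
    coeff j (PowerSeries.derivative R ((1 - 4 * X ^ 2) * PowerSeries.derivative R f))
      = ((j : R) + 1) * (j + 2) * coeff (j + 2) f - 4 * j * (j + 1) * coeff j f := by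
  rw [coeff_derivative, sub_mul, one_mul, map_sub, coeff_derivative, mul_assoc 4]
  have h4 : (4 * (X ^ 2 * PowerSeries.derivative R f) : R⟦X⟧) = C 4 * (X ^ 2 * PowerSeries.derivative R f) := by
    rw [map_ofNat]
  rw [h4, coeff_C_mul, coeff_X_pow_mul']
  rcases j with _ | i
  · simp; ring
  · rw [if_pos (by omega), show i + 1 + 1 - 2 = i by omega, coeff_derivative]
    push_cast
    ring

/-- G₃ over ℚ -/
noncomputable def G3 : ℚ⟦X⟧ := evS (fun n => (Pi3 n : ℚ) / (2 * n).factorial)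
/-- G₁ over ℚ -/
noncomputable def G1 : ℚ⟦X⟧ := odS (fun n => (Pi1 n : ℚ) / (2 * n + 1).factorial)

theorem ode3 : PowerSeries.derivative ℚ ((1 - 4 * X ^ 2) * PowerSeries.derivative ℚ G3) = G3 := by
  ext j
  rw [coeff_dd]
  rcases Nat.even_or_odd' j with ⟨n, rfl | rfl⟩
  · rw [show 2 * n + 2 = 2 * (n + 1) by ring, G3, coeff_evS_even, coeff_evS_even, Pi3_succ,
      show 2 * (n + 1) = 2 * n + 1 + 1 by ring, Nat.factorial_succ, Nat.factorial_succ]
    have h : ((2 * n).factorial : ℚ) ≠ 0 := by exact_mod_cast (Nat.factorial_pos _).ne'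
    push_cast
    field_simp
    ring
  · rw [show 2 * n + 1 + 2 = 2 * (n + 1) + 1 by ring, G3, coeff_evS_odd, coeff_evS_odd]; ring

theorem ode1 : PowerSeries.derivative ℚ ((1 - 4 * X ^ 2) * PowerSeries.derivative ℚ G1) = G1 := by
  ext j
  rw [coeff_dd]
  rcases Nat.even_or_odd' j with ⟨n, rfl | rfl⟩
  · rw [show 2 * n + 2 = 2 * (n + 1) by ring, G1, coeff_odS_even, coeff_odS_even]; ring
  · rw [show 2 * n + 1 + 2 = 2 * (n + 1) + 1 by ring, G1, coeff_odS_odd, coeff_odS_odd, Pi1_succ,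
      show 2 * (n + 1) + 1 = 2 * n + 1 + 1 + 1 by ring, Nat.factorial_succ, Nat.factorial_succ (2 * n + 1)]
    have h : ((2 * n + 1).factorial : ℚ) ≠ 0 := by exact_mod_cast (Nat.factorial_pos _).ne'
    push_cast
    field_simp
    ring

theorem G3_zero : constantCoeff G3 = 1 := by
  rw [← PowerSeries.coeff_zero_eq_constantCoeff_apply, show (0 : ℕ) = 2 * 0 by rfl, G3, coeff_evS_even]
  simp [Pi3]

theorem G1_zero : constantCoeff G1 = 0 := by
  rw [← PowerSeries.coeff_zero_eq_constantCoeff_apply, show (0 : ℕ) = 2 * 0 by rfl, G1, coeff_odS_even]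

theorem wronsk_Q : (1 - 4 * X ^ 2) * (PowerSeries.derivative ℚ G1 * G3 - G1 * PowerSeries.derivative ℚ G3) = 1 := by
  apply PowerSeries.derivative.ext
  · have e : (1 - 4 * X ^ 2) * (PowerSeries.derivative ℚ G1 * G3 - G1 * PowerSeries.derivative ℚ G3)
        = ((1 - 4 * X ^ 2) * PowerSeries.derivative ℚ G1) * G3 - G1 * ((1 - 4 * X ^ 2) * PowerSeries.derivative ℚ G3) := by
      ring
    rw [e, map_sub, Derivation.leibniz, Derivation.leibniz (PowerSeries.derivative ℚ) G1, ode1, ode3,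
      Derivation.map_one_eq_zero]
    simp only [smul_eq_mul]
    ring
  · have h1 : constantCoeff (PowerSeries.derivative ℚ G1) = 1 := by
      rw [← PowerSeries.coeff_zero_eq_constantCoeff_apply, coeff_derivative,
        show 0 + 1 = 2 * 0 + 1 by rfl, G1, coeff_odS_odd]
      simp [Pi1]
    simp [G3_zero, G1_zero, h1]

/-- sum over a range split by parity -/
theorem sum_range_two_mul {M : Type*} [AddCommMonoid M] (f : ℕ → M) (n : ℕ) :
    ∑ i ∈ range (2 * n), f i = ∑ k ∈ range n, (f (2 * k) + f (2 * k + 1)) := by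
  induction n with
  | zero => simp
  | succ n ih =>
    rw [show 2 * (n + 1) = 2 * n + 1 + 1 by ring, Finset.sum_range_succ, Finset.sum_range_succ, ih,
      Finset.sum_range_succ, add_assoc]

section U
variable (u : ℕ → ℤ)
  (hu : ∀ n, u n = Pi1 n - ∑ m ∈ range n, ((2 * n + 1).choose (2 * m + 1) : ℤ) * Pi3 (n - m) * u m)

/-- `U(t) = Σ u(n) t^{2n+1}/(2n+1)!` -/
noncomputable def UU : ℚ⟦X⟧ := odS (fun n => (u n : ℚ) / (2 * n + 1).factorial)

include hu in
theorem UG : UU u * G3 = G1 := by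
  ext j
  rw [coeff_mul, Finset.Nat.sum_antidiagonal_eq_sum_range_succ (fun i k => coeff i (UU u) * coeff k G3)]
  rcases Nat.even_or_odd' j with ⟨n, rfl | rfl⟩
  · rw [G1, coeff_odS_even]
    apply Finset.sum_eq_zero
    intro i hi
    have hi' := Finset.mem_range.1 hi
    rcases Nat.even_or_odd' i with ⟨k, rfl | rfl⟩
    · rw [UU, coeff_odS_even, zero_mul]
    · rw [show 2 * n - (2 * k + 1) = 2 * (n - k - 1) + 1 by omega, G3, coeff_evS_odd, mul_zero]
  · rw [show (2 * n + 1).succ = 2 * (n + 1) by rfl, sum_range_two_mul]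
    have h1 : ∀ k ∈ range (n + 1), coeff (2 * k) (UU u) * coeff (2 * n + 1 - 2 * k) G3
        + coeff (2 * k + 1) (UU u) * coeff (2 * n + 1 - (2 * k + 1)) G3
        = (((2 * n + 1).choose (2 * k + 1) : ℤ) * Pi3 (n - k) * u k : ℤ) / ((2 * n + 1).factorial : ℚ) := by
      intro k hk
      have hk' := Finset.mem_range.1 hk
      rw [UU, coeff_odS_even, zero_mul, zero_add, coeff_odS_odd,
        show 2 * n + 1 - (2 * k + 1) = 2 * (n - k) by omega, G3, coeff_evS_even]
      have h2 := Nat.choose_mul_factorial_mul_factorial (show 2 * k + 1 ≤ 2 * n + 1 by omega)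
      rw [show 2 * n + 1 - (2 * k + 1) = 2 * (n - k) by omega] at h2
      have h3 : ((2 * k + 1).factorial : ℚ) ≠ 0 := by exact_mod_cast (Nat.factorial_pos _).ne'
      have h4 : ((2 * (n - k)).factorial : ℚ) ≠ 0 := by exact_mod_cast (Nat.factorial_pos _).ne'
      have h5 : ((2 * n + 1).factorial : ℚ) ≠ 0 := by exact_mod_cast (Nat.factorial_pos _).ne'
      rw [← h2] at h5 ⊢
      push_cast at h5 ⊢
      have h6 : ((2 * n + 1).choose (2 * k + 1) : ℚ) ≠ 0 := by
        intro h; rw [h] at h5; simp at h5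
      field_simp
    rw [Finset.sum_congr rfl h1, ← Finset.sum_div, G1, coeff_odS_odd]
    congr 1
    rw [← Int.cast_sum, Finset.sum_range_succ]
    have h2 := hu n
    have h3 : ∑ k ∈ range n, ((2 * n + 1).choose (2 * k + 1) : ℤ) * Pi3 (n - k) * u k
        + ((2 * n + 1).choose (2 * n + 1) : ℤ) * Pi3 (n - n) * u n = Pi1 n := by
      rw [Nat.choose_self, Nat.sub_self]
      have : Pi3 0 = 1 := by simp [Pi3]
      rw [this]
      push_cast
      linear_combination h2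
    exact_mod_cast h3

include hu in
theorem DU : DD G3 (UU u) = 1 := by
  have hG := UG u hu
  have hW := wronsk_Q
  rw [← hG, Derivation.leibniz] at hW
  rw [DD_apply]
  simp only [smul_eq_mul] at hW
  linear_combination hW

theorem D_pow_U (D : Derivation ℚ ℚ⟦X⟧ ℚ⟦X⟧) (U : ℚ⟦X⟧) (hD : D U = 1) (i j : ℕ) :
    D^[j] (U ^ i) = (i.descFactorial j : ℚ⟦X⟧) * U ^ (i - j) := by
  induction j with
  | zero => simp
  | succ j ih =>
    rw [Function.iterate_succ_apply', ih, Derivation.leibniz, Derivation.map_natCast, Derivation.leibniz_pow, hD,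
      Nat.descFactorial_succ]
    push_cast
    simp only [smul_eq_mul, nsmul_eq_mul, mul_one, mul_zero, add_zero]
    rw [show i - (j + 1) = i - j - 1 by omega]
    ring

theorem X_dvd_D (G : ℚ⟦X⟧) (f : ℚ⟦X⟧) (n : ℕ) (h : X ^ (n + 1) ∣ f) : X ^ n ∣ DD G f := by
  obtain ⟨g, rfl⟩ := h
  rw [DD_apply, Derivation.leibniz, Derivation.leibniz_pow, PowerSeries.derivative_X]
  refine Dvd.dvd.mul_left ?_ _
  refine ⟨X * PowerSeries.derivative ℚ g + g * ((n + 1 : ℕ) : ℚ⟦X⟧), ?_⟩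
  simp only [smul_eq_mul, nsmul_eq_mul, mul_one, Nat.add_sub_cancel]
  ring

theorem const_D_zero (G : ℚ⟦X⟧) (j : ℕ) : ∀ (f : ℚ⟦X⟧), X ^ (j + 1) ∣ f → constantCoeff ((DD G)^[j] f) = 0 := by
  induction j with
  | zero =>
    intro f hf
    rw [zero_add, pow_one, PowerSeries.X_dvd_iff] at hf
    exact hf
  | succ j ih =>
    intro f hf
    rw [Function.iterate_succ_apply]
    exact ih _ (X_dvd_D G f _ hf)

/-- `r(n,k)` -/
noncomputable def rr (n k : ℕ) : ℚ :=
  (2 : ℚ) ^ ((n : ℤ) - (k : ℤ)) * (((2 * n).factorial : ℚ) / ((2 * k).factorial : ℚ)) * coeff (2 * n) (UU u ^ (2 * k))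

include hu in
theorem u_zero : u 0 = 1 := by
  have := hu 0
  simpa [Pi1] using this

theorem U_X : X ∣ UU u := by
  rw [PowerSeries.X_dvd_iff, ← PowerSeries.coeff_zero_eq_constantCoeff_apply, show (0 : ℕ) = 2 * 0 by rfl, UU,
    coeff_odS_even]

theorem coeff_U_gt (n k : ℕ) (h : n < k) : coeff (2 * n) (UU u ^ (2 * k)) = 0 := by
  have h1 : X ^ (2 * k) ∣ UU u ^ (2 * k) := pow_dvd_pow_of_dvd (U_X u) _
  rw [PowerSeries.X_pow_dvd_iff] at h1
  exact h1 _ (by omega)

include hu in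
theorem coeff_U_self (n : ℕ) : coeff (2 * n) (UU u ^ (2 * n)) = 1 := by
  obtain ⟨V, hV⟩ := U_X u
  have h1 : constantCoeff V = 1 := by
    have h2 : coeff 1 (UU u) = 1 := by
      rw [show (1 : ℕ) = 2 * 0 + 1 by rfl, UU, coeff_odS_odd, u_zero u hu]; simp
    rw [hV, show (1 : ℕ) = 0 + 1 by rfl, PowerSeries.coeff_succ_X_mul] at h2
    simpa using h2
  rw [hV, mul_pow, PowerSeries.coeff_X_pow_mul', if_pos le_rfl, Nat.sub_self]
  simp [h1]

theorem coeff_U_odd (n k : ℕ) : coeff (2 * n + 1) (UU u ^ (2 * k)) = 0 := by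
  have h1 : PowerSeries.rescale (-1 : ℚ) (UU u) = - UU u := by
    ext j
    rw [PowerSeries.coeff_rescale, map_neg]
    rcases Nat.even_or_odd' j with ⟨i, rfl | rfl⟩
    · rw [UU, coeff_odS_even]; simp
    · rw [UU, coeff_odS_odd, pow_succ, pow_mul]; simp
  have h2 : PowerSeries.rescale (-1 : ℚ) (UU u ^ (2 * k)) = UU u ^ (2 * k) := by
    rw [map_pow, h1, pow_mul, neg_sq, ← pow_mul]
  have h3 := congrArg (coeff (2 * n + 1)) h2
  rw [PowerSeries.coeff_rescale, pow_succ, pow_mul] at h3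
  simp only [even_two, Even.neg_pow, one_pow, one_mul, neg_mul] at h3
  linarith

end U

section V
variable (u : ℕ → ℤ)
  (hu : ∀ n, u n = Pi1 n - ∑ m ∈ range n, ((2 * n + 1).choose (2 * m + 1) : ℤ) * Pi3 (n - m) * u m)
  (v d : ℕ → ℚ) (hv0 : v 0 = 1)
  (hv : ∀ n, 1 ≤ n → v n = 2 ^ (n - 1) * (Pi3 n : ℚ) - 1 / 2 * ∑ m ∈ Ico 1 n, ((2 * n).choose (2 * m) : ℚ) * v m * v (n - m))
  (hd0 : d 0 = 1)
  (hd : ∀ n, 1 ≤ n → d n = v n - ∑ k ∈ range n, rr u n k * d k)

/-- `√G₃` -/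
noncomputable def Fq : ℚ⟦X⟧ := evS (fun n => v n / (2 ^ n * (2 * n).factorial))

include hv0 hv in
theorem Fq_sq : Fq v ^ 2 = G3 := by
  ext j
  rw [sq, coeff_mul, Finset.Nat.sum_antidiagonal_eq_sum_range_succ (fun i k => coeff i (Fq v) * coeff k (Fq v))]
  rcases Nat.even_or_odd' j with ⟨n, rfl | rfl⟩
  · rw [Finset.sum_range_succ, sum_range_two_mul]
    have h1 : ∀ k ∈ range n, coeff (2 * k) (Fq v) * coeff (2 * n - 2 * k) (Fq v)
        + coeff (2 * k + 1) (Fq v) * coeff (2 * n - (2 * k + 1)) (Fq v)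
        = (((2 * n).choose (2 * k) : ℚ) * v k * v (n - k)) / (2 ^ n * ((2 * n).factorial : ℚ)) := by
      intro k hk
      have hk' := Finset.mem_range.1 hk
      rw [Fq, coeff_evS_odd, zero_mul, add_zero, coeff_evS_even,
        show 2 * n - 2 * k = 2 * (n - k) by omega, coeff_evS_even]
      have h2 := Nat.choose_mul_factorial_mul_factorial (show 2 * k ≤ 2 * n by omega)
      rw [show 2 * n - 2 * k = 2 * (n - k) by omega] at h2
      have h3 : ((2 * k).factorial : ℚ) ≠ 0 := by exact_mod_cast (Nat.factorial_pos _).ne'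
      have h4 : ((2 * (n - k)).factorial : ℚ) ≠ 0 := by exact_mod_cast (Nat.factorial_pos _).ne'
      have h5 : ((2 * n).factorial : ℚ) ≠ 0 := by exact_mod_cast (Nat.factorial_pos _).ne'
      have h7 : (2 : ℚ) ^ n = 2 ^ k * 2 ^ (n - k) := by rw [← pow_add]; congr 1; omega
      rw [← h2, h7] at *
      push_cast at h5 ⊢
      have h6 : ((2 * n).choose (2 * k) : ℚ) ≠ 0 := by
        intro h; rw [h] at h5; simp at h5
      field_simp
    rw [Finset.sum_congr rfl h1, ← Finset.sum_div, Nat.sub_self, show (0 : ℕ) = 2 * 0 by rfl, Fq, coeff_evS_even,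
      coeff_evS_even, G3, coeff_evS_even, hv0]
    have h5 : ((2 * n).factorial : ℚ) ≠ 0 := by exact_mod_cast (Nat.factorial_pos _).ne'
    rcases Nat.eq_zero_or_pos n with h0 | h0
    · subst h0; simp [hv0, Pi3]
    · have h6 : ∑ k ∈ range n, ((2 * n).choose (2 * k) : ℚ) * v k * v (n - k)
          = v n + ∑ k ∈ Ico 1 n, ((2 * n).choose (2 * k) : ℚ) * v k * v (n - k) := by
        rw [Finset.range_eq_Ico, Finset.sum_eq_sum_Ico_succ_bot h0]
        simp [hv0]
      have h7 := hv n h0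
      have h8 : (2 : ℚ) ^ n = 2 * 2 ^ (n - 1) := by rw [← pow_succ']; congr 1; omega
      rw [h6]
      have h9 : v n + ∑ k ∈ Ico 1 n, ((2 * n).choose (2 * k) : ℚ) * v k * v (n - k)
          = 2 ^ n * (Pi3 n : ℚ) - v n := by
        rw [h8]; linear_combination 2 * h7
      rw [h9]
      have h10 : (2 : ℚ) ^ n ≠ 0 := by positivity
      simp only [mul_zero, Nat.factorial_zero, pow_zero, Nat.cast_one, mul_one, div_one]
      field_simp
      ring
  · rw [G3, coeff_evS_odd]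
    apply Finset.sum_eq_zero
    intro i hi
    have hi' := Finset.mem_range.1 hi
    rcases Nat.even_or_odd' i with ⟨k, rfl | rfl⟩
    · rw [show 2 * n + 1 - 2 * k = 2 * (n - k) + 1 by omega, Fq, coeff_evS_odd, mul_zero]
    · rw [Fq, coeff_evS_odd, zero_mul]

include hu hv0 hd0 hd in
theorem v_sum (n : ℕ) : v n = ∑ k ∈ range (n + 1), rr u n k * d k := by
  have hrn : rr u n n = 1 := by
    unfold rr
    rw [coeff_U_self u hu, sub_self, zpow_zero]
    have h5 : ((2 * n).factorial : ℚ) ≠ 0 := by exact_mod_cast (Nat.factorial_pos _).ne'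
    rw [div_self h5]; ring
  rw [Finset.sum_range_succ, hrn, one_mul]
  rcases Nat.eq_zero_or_pos n with h0 | h0
  · subst h0; simp [hv0, hd0]
  · rw [hd n h0]; ring

include hu hv0 hd0 hd in
theorem d_formula (K : ℕ) : d K = 2 ^ K * constantCoeff ((DD G3)^[2 * K] (Fq v)) := by
  set T : ℚ⟦X⟧ := ∑ k ∈ range (K + 1), C (d k / (2 ^ k * (2 * k).factorial)) * UU u ^ (2 * k) with hT
  have hdiv : X ^ (2 * K + 1) ∣ Fq v - T := by
    rw [PowerSeries.X_pow_dvd_iff]
    intro j hj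
    rw [map_sub, sub_eq_zero, hT, map_sum]
    simp only [coeff_C_mul]
    rcases Nat.even_or_odd' j with ⟨n, rfl | rfl⟩
    · rw [Fq, coeff_evS_even]
      have hnK : n ≤ K := by omega
      have h1 : ∀ k ∈ range (K + 1), d k / (2 ^ k * ((2 * k).factorial : ℚ)) * coeff (2 * n) (UU u ^ (2 * k))
          = (rr u n k * d k) / (2 ^ n * ((2 * n).factorial : ℚ)) := by
        intro k _
        unfold rr
        have h3 : ((2 * k).factorial : ℚ) ≠ 0 := by exact_mod_cast (Nat.factorial_pos _).ne'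
        have h5 : ((2 * n).factorial : ℚ) ≠ 0 := by exact_mod_cast (Nat.factorial_pos _).ne'
        have h6 : (2 : ℚ) ^ ((n : ℤ) - (k : ℤ)) = 2 ^ n / 2 ^ k := by
          rw [zpow_sub₀ (by norm_num), zpow_natCast, zpow_natCast]
        rw [h6]
        field_simp
      rw [Finset.sum_congr rfl h1, ← Finset.sum_div]
      congr 1
      rw [v_sum u hu v d hv0 hd0 hd n]
      apply Finset.sum_subset
      · intro k hk
        rw [Finset.mem_range] at hk ⊢
        omega
      · intro k hk hk'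
        rw [Finset.mem_range] at hk hk'
        unfold rr
        rw [coeff_U_gt u n k (by omega)]; ring
    · rw [Fq, coeff_evS_odd]
      symm
      apply Finset.sum_eq_zero
      intro k _
      rw [coeff_U_odd, mul_zero]
  have h1 := const_D_zero G3 (2 * K) _ hdiv
  have h2 : (DD G3)^[2 * K] (Fq v - T) = (DD G3)^[2 * K] (Fq v) - (DD G3)^[2 * K] T := by
    have := map_sub (((DD G3 : Derivation ℚ ℚ⟦X⟧ ℚ⟦X⟧) : ℚ⟦X⟧ →ₗ[ℚ] ℚ⟦X⟧) ^ (2 * K)) (Fq v) T
    rw [Module.End.pow_apply, Module.End.pow_apply, Module.End.pow_apply] at this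
    exact this
  rw [h2, map_sub, sub_eq_zero] at h1
  rw [h1]
  have h3 : (DD G3)^[2 * K] T = ∑ k ∈ range (K + 1), C (d k / (2 ^ k * (2 * k).factorial)) *
      (DD G3)^[2 * K] (UU u ^ (2 * k)) := by
    have := map_sum (((DD G3 : Derivation ℚ ℚ⟦X⟧ ℚ⟦X⟧) : ℚ⟦X⟧ →ₗ[ℚ] ℚ⟦X⟧) ^ (2 * K))
      (fun k => C (d k / (2 ^ k * (2 * k).factorial)) * UU u ^ (2 * k)) (range (K + 1))
    rw [Module.End.pow_apply] at this
    have e : (DD G3)^[2 * K] T = (((DD G3 : Derivation ℚ ℚ⟦X⟧ ℚ⟦X⟧) : ℚ⟦X⟧ →ₗ[ℚ] ℚ⟦X⟧))^[2 * K] T := rfl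
    rw [e, hT, this]
    apply Finset.sum_congr rfl
    intro k _
    rw [← PowerSeries.smul_eq_C_mul, map_smul, Module.End.pow_apply, ← PowerSeries.smul_eq_C_mul]
    rfl
  rw [h3, map_sum, Finset.sum_range_succ]
  have hDU := DU u hu
  have h4 : ∑ k ∈ range K, constantCoeff (C (d k / (2 ^ k * ((2 * k).factorial : ℚ))) *
      (DD G3)^[2 * K] (UU u ^ (2 * k))) = 0 := by
    apply Finset.sum_eq_zero
    intro k hk
    have hk' := Finset.mem_range.1 hk
    rw [D_pow_U _ _ hDU, Nat.descFactorial_eq_zero_iff_lt.2 (by omega)]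
    simp
  rw [h4, zero_add, D_pow_U _ _ hDU, Nat.descFactorial_self, Nat.sub_self, pow_zero, mul_one, map_mul,
    PowerSeries.constantCoeff_C, map_natCast]
  have h5 : ((2 * K).factorial : ℚ) ≠ 0 := by exact_mod_cast (Nat.factorial_pos _).ne'
  field_simp

end V

end V11294.Th
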