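import Pool.Agent.V11294.Th.Pval

open Finset

namespace V11294.Th

/-- `N n = ∏_{j<n} (4j+1)` -/
def NN (n : ℕ) : ℕ := ∏ j ∈ range n, (4 * j + 1)

def fA (p j : ℕ) : ℕ := if p ∣ 4 * j + 1 then 1 else 4 * j + 1
def gB (p j : ℕ) : ℕ := if p ∣ j + 1 then 1 else j + 1
def AA (p n : ℕ) : ℕ := ∏ j ∈ range n, fA p j
def BB (p n : ℕ) : ℕ := ∏ j ∈ range n, gB p j

section G
variable (p m : ℕ) [hp : Fact p.Prime] (hpm : p = 4 * m + 1)

omit hp in
theorem fac_split (_hp0 : 0 < p) (n : ℕ) : n.factorial = BB p n * (p ^ (n / p) * (n / p).factorial) := by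
  induction n with
  | zero => simp [BB]
  | succ n ih =>
    rw [Nat.factorial_succ, ih, BB, BB, Finset.prod_range_succ, Nat.succ_div, gB]
    by_cases h : p ∣ n + 1
    · rw [if_pos h, if_pos h]
      have h1 : (n + 1) / p = n / p + 1 := by rw [Nat.succ_div, if_pos h]
      have h2 : p * (n / p + 1) = n + 1 := by rw [← h1]; exact Nat.mul_div_cancel' h
      rw [Nat.factorial_succ, pow_succ, ← h2]; ring
    · rw [if_neg h, if_neg h]; simp only [add_zero]; ring

include hpm in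
omit hp in
theorem NN_split (n : ℕ) : NN n = AA p n * (p ^ ((n + 3 * m) / p) * NN ((n + 3 * m) / p)) := by
  induction n with
  | zero =>
    rw [Nat.div_eq_of_lt (by omega)]; simp [AA, NN]
  | succ n ih =>
    have hiff : p ∣ 4 * n + 1 ↔ p ∣ n + 3 * m + 1 := by
      have h1 : 4 * (n + 3 * m + 1) = (4 * n + 1) + p * 3 := by rw [hpm]; ring
      have h2 : Nat.Coprime p 4 := by
        rw [hpm]; 
        have : Nat.Coprime (1 + 4 * m) 4 := by simp
        rwa [add_comm] at this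
      constructor
      · intro h
        exact h2.dvd_of_dvd_mul_left (h1 ▸ (Dvd.dvd.add h (Dvd.intro _ rfl)))
      · intro h
        have h3 : p ∣ (4 * n + 1) + p * 3 := h1 ▸ (h.mul_left 4)
        exact (Nat.dvd_add_left (Dvd.intro _ rfl)).1 h3
    have hN : NN (n + 1) = NN n * (4 * n + 1) := by rw [NN, Finset.prod_range_succ]; rfl
    have hA : AA p (n + 1) = AA p n * fA p n := by rw [AA, Finset.prod_range_succ]; rfl
    rw [hN, hA, ih, show n + 1 + 3 * m = (n + 3 * m) + 1 by ring, Nat.succ_div, fA]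
    by_cases h : p ∣ 4 * n + 1
    · rw [if_pos h, if_pos (hiff.1 h)]
      set t := (n + 3 * m) / p with ht
      have h1 : (n + 3 * m + 1) / p = t + 1 := by rw [Nat.succ_div, if_pos (hiff.1 h)]
      have h2 : p * (t + 1) = n + 3 * m + 1 := by rw [← h1]; exact Nat.mul_div_cancel' (hiff.1 h)
      have h3 : 4 * n + 1 = p * (4 * t + 1) := by
        have : 4 * n + 1 + 3 * p = p * (4 * t + 1) + 3 * p := by
          have : p * (4 * t + 1) + 3 * p = 4 * (p * (t + 1)) := by ring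
          rw [this, h2]; omega
        omega
      have hN' : NN (t + 1) = NN t * (4 * t + 1) := by rw [NN, Finset.prod_range_succ]; rfl
      rw [hN', h3, pow_succ]; ring
    · rw [if_neg h, if_neg (fun h' => h (hiff.2 h'))]; simp only [add_zero]; ring

theorem AA_ndvd (n : ℕ) : ¬ p ∣ AA p n := by
  rw [AA, hp.1.prime.dvd_finsetProd_iff]
  rintro ⟨j, _, hj⟩
  unfold fA at hj
  split_ifs at hj with h
  · exact hp.1.one_lt.ne' (Nat.dvd_one.1 hj)
  · exact h hj

theorem BB_ndvd (n : ℕ) : ¬ p ∣ BB p n := by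
  rw [BB, hp.1.prime.dvd_finsetProd_iff]
  rintro ⟨j, _, hj⟩
  unfold gB at hj
  split_ifs at hj with h
  · exact hp.1.one_lt.ne' (Nat.dvd_one.1 hj)
  · exact h hj

theorem BB_unit (n : ℕ) : IsUnit ((BB p n : ℕ) : ℤ_[p]) := by
  rw [PadicInt.isUnit_iff]
  have h := BB_ndvd p n
  have h1 := (PadicInt.norm_int_lt_one_iff_dvd (p := p) ((BB p n : ℕ) : ℤ))
  have h2 : ¬ ‖(((BB p n : ℕ) : ℤ) : ℤ_[p])‖ < 1 := by
    rw [h1]; exact_mod_cast h
  have h3 : ‖((BB p n : ℕ) : ℤ_[p])‖ ≤ 1 := PadicInt.norm_le_one _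
  have h4 : (((BB p n : ℕ) : ℤ) : ℤ_[p]) = ((BB p n : ℕ) : ℤ_[p]) := by push_cast; rfl
  rw [h4] at h2
  exact le_antisymm h3 (not_lt.1 h2)

omit hp in
theorem NN_succ (n : ℕ) : NN (n + 1) = NN n * (4 * n + 1) := by
  rw [NN, Finset.prod_range_succ]; rfl

omit hp in
theorem mul_dvd_aux {R : Type*} [CommRing R] {u a b : R} (hu : IsUnit u) : u * a ∣ b ↔ a ∣ b :=
  hu.mul_left_dvd

include hpm in
theorem dvd_N (n : ℕ) : ((2 * n).factorial : ℤ_[p]) ∣ ((NN n : ℕ) : ℤ_[p]) ^ 2 := by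
  induction n using Nat.strong_induction_on with
  | _ n ih =>
  rcases Nat.eq_zero_or_pos n with h0 | h0
  · subst h0; simp
  have hp0 := hp.1.pos
  have hm := m_pos p m hpm
  set a := n / p with ha
  set b := n % p with hb
  have hn : n = p * a + b := (Nat.div_add_mod n p).symm
  have hbp : b < p := Nat.mod_lt _ hp0
  have hap : a < n := Nat.div_lt_self h0 hp.1.one_lt
  have e1 := fac_split p hp0 (2 * n)
  have e2 := NN_split p m hpm n
  have hu := BB_unit p (2 * n)
  have hapa : a ≤ p * a := Nat.le_mul_of_pos_left a hp0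
  have hdiv : ∀ x q r, x = p * q + r → r < p → x / p = q := by
    intro x q r h hr
    rw [h, Nat.mul_add_div hp0, Nat.div_eq_of_lt hr, add_zero]
  have h2a : p * (2 * a) = 2 * (p * a) := by ring
  by_cases hb1 : b ≤ m
  · have t1 : (n + 3 * m) / p = a := hdiv _ a (b + 3 * m) (by omega) (by omega)
    have t2 : (2 * n) / p = 2 * a := hdiv _ (2 * a) (2 * b) (by omega) (by omega)
    rw [t1] at e2
    rw [t2] at e1
    obtain ⟨g, hg⟩ := ih a hap
    rw [e1, e2]
    push_cast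
    rw [mul_dvd_aux hu]
    refine ⟨(AA p n : ℤ_[p]) ^ 2 * g, ?_⟩
    linear_combination ((AA p n : ℤ_[p]) ^ 2 * (p : ℤ_[p]) ^ (2 * a)) * hg
  · have ha1 : a + 1 < n := by
      have : 2 ≤ b := by omega
      rcases Nat.eq_zero_or_pos a with h | h
      · rw [h] at hn ⊢; omega
      · have : a + 1 ≤ p * a := by nlinarith [hp.1.two_le]
        omega
    have t1 : (n + 3 * m) / p = a + 1 := hdiv _ (a + 1) (b - m - 1) (by rw [Nat.mul_add, mul_one]; omega) (by omega)
    obtain ⟨g, hg⟩ := ih (a+1) ha1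
    have hf : (2 * (a + 1)).factorial = (2 * a + 2) * ((2 * a + 1) * (2 * a).factorial) := by
      rw [show 2 * (a + 1) = 2 * a + 1 + 1 by ring, Nat.factorial_succ, Nat.factorial_succ]
    rw [t1] at e2
    rw [hf] at hg
    push_cast at hg
    by_cases hb2 : b ≤ 2 * m
    · have t2 : (2 * n) / p = 2 * a := hdiv _ (2 * a) (2 * b) (by omega) (by omega)
      rw [t2] at e1
      rw [e1, e2]
      push_cast
      rw [mul_dvd_aux hu]
      refine ⟨(AA p n : ℤ_[p]) ^ 2 * (p : ℤ_[p]) ^ 2 * ((2 * a + 2) * (2 * a + 1)) * g, ?_⟩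
      linear_combination ((AA p n : ℤ_[p]) ^ 2 * (p : ℤ_[p]) ^ (2 * (a + 1))) * hg
    · have t2 : (2 * n) / p = 2 * a + 1 :=
        hdiv _ (2 * a + 1) (2 * b - p) (by rw [Nat.mul_add, mul_one]; omega) (by omega)
      rw [t2] at e1
      rw [e1, e2, Nat.factorial_succ]
      push_cast
      rw [mul_dvd_aux hu]
      refine ⟨(AA p n : ℤ_[p]) ^ 2 * (p : ℤ_[p]) * (2 * a + 2) * g, ?_⟩
      linear_combination ((AA p n : ℤ_[p]) ^ 2 * (p : ℤ_[p]) ^ (2 * (a + 1))) * hg

end G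

end V11294.Th
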