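import Pool.Agent.V11294.Th.CharP

open Finset

namespace V11294.Th

section J
variable {R A : Type*} [CommRing R] [CommRing A] [Algebra R A]

/-- coefficients of the generic log-derivative polynomials -/
def bj (D : A → A) (g : A) : ℕ → ℕ → A
  | 0, 0 => 1
  | 0, _+1 => 0
  | n+1, 0 => D (bj D g n 0)
  | n+1, j+1 => D (bj D g n (j+1)) + g * bj D g n j

variable (D : Derivation R A A) (g : A)

theorem bj_gt (n : ℕ) : ∀ j, n < j → bj D g n j = 0 := by
  induction n with
  | zero =>
    intro j hj
    obtain ⟨k, rfl⟩ : ∃ k, j = k + 1 := ⟨j - 1, by omega⟩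
    rfl
  | succ n ih =>
    intro j hj
    obtain ⟨k, rfl⟩ : ∃ k, j = k + 1 := ⟨j - 1, by omega⟩
    simp only [bj]
    rw [ih (k+1) (by omega), ih k (by omega)]
    simp

theorem bj_self (n : ℕ) : bj D g n n = g ^ n := by
  induction n with
  | zero => simp [bj]
  | succ n ih =>
    simp only [bj]
    rw [ih, bj_gt D g n (n+1) (by omega)]
    simp [pow_succ']

theorem bj_zero (n : ℕ) : bj D g (n+1) 0 = 0 := by
  induction n with
  | zero => simp [bj]
  | succ n ih =>
    rw [bj, ih, map_zero]

theorem bj_one (n : ℕ) : bj D g (n+1) 1 = D^[n] g := by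
  induction n with
  | zero => simp [bj]
  | succ n ih =>
    rw [bj, ih, bj_zero]
    simp [Function.iterate_succ_apply']

theorem bj_eval (x : A) (hx : D x = g * x) (N m : ℕ) (n : ℕ) (hn : n ≤ N) :
    D^[n] (x ^ m) = (∑ j ∈ range (N + 1), bj D g n j * (m : A) ^ j) * x ^ m := by
  induction n with
  | zero =>
    rw [Finset.sum_range_succ']
    simp [bj]
  | succ n ih =>
    rw [Function.iterate_succ_apply', ih (by omega), Derivation.leibniz, Derivation.leibniz_pow, hx]
    have h1 : D (∑ j ∈ range (N + 1), bj D g n j * (m : A) ^ j)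
        = ∑ j ∈ range (N + 1), D (bj D g n j) * (m : A) ^ j := by
      rw [map_sum]
      apply Finset.sum_congr rfl
      intro j _
      rw [Derivation.leibniz, Derivation.leibniz_pow, Derivation.map_natCast]
      simp [mul_comm]
    have h2 : (m : A) * x ^ (m - 1) * (g * x) = m * g * x ^ m := by
      rcases m with _ | m
      · simp
      · simp only [Nat.add_sub_cancel, pow_succ]; ring
    have h3 : ∑ j ∈ range (N + 1), bj D g (n+1) j * (m : A) ^ j
        = ∑ j ∈ range (N + 1), D (bj D g n j) * (m : A) ^ j
          + m * g * ∑ j ∈ range (N + 1), bj D g n j * (m : A) ^ j := by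
      rw [Finset.sum_range_succ' (fun j => bj D g (n+1) j * (m : A) ^ j),
        Finset.sum_range_succ' (fun j => D (bj D g n j) * (m : A) ^ j),
        Finset.sum_range_succ (fun j => bj D g n j * (m : A) ^ j), bj_gt D g n N (by omega)]
      simp only [bj, add_mul, Finset.sum_add_distrib, zero_mul, add_zero]
      rw [Finset.mul_sum]
      have : ∀ j, g * bj D g n j * (m : A) ^ (j+1) = m * g * (bj D g n j * (m : A) ^ j) := by
        intro j; ring
      simp only [this]
      ring
    rw [h1, h3]
    simp only [smul_eq_mul, nsmul_eq_mul]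
    rw [← mul_assoc (m : A) (x ^ (m-1)), h2]
    ring

variable [IsDomain A] (p : ℕ) [hp : Fact p.Prime] [CharP A p]

theorem jacobson (x : A) (hx0 : x ≠ 0) (hx : D x = g * x) :
    D^[p] x = (g ^ p + D^[p-1] g) * x := by
  have hp1 := hp.1.one_lt
  set B : A := ∑ j ∈ range (p + 1), bj D g p j with hB
  have hDx : D^[p] x = B * x := by
    have := bj_eval D g x hx p 1 p le_rfl
    simpa using this
  have hm : ∀ m : ℕ, ∑ j ∈ range (p + 1), bj D g p j * (m : A) ^ j = m * B := by
    intro m
    have h1 := bj_eval D g x hx p m p le_rfl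
    have h2 : D^[p] (x ^ m) = m * B * x ^ m := by
      rw [← powD_apply, Derivation.leibniz_pow, powD_apply, hDx]
      rcases m with _ | m
      · simp
      · simp only [Nat.add_sub_cancel, pow_succ, smul_eq_mul, nsmul_eq_mul]; ring
    rw [h2] at h1
    exact (mul_right_cancel₀ (pow_ne_zero m hx0) h1).symm
  have hfrob : ∀ m : ℕ, (m : A) ^ p = m := by
    intro m
    have h1 : ((m : ZMod p)) ^ p = m := ZMod.pow_card _
    have h2 := congrArg (ZMod.castHom dvd_rfl A) h1
    rwa [map_pow, map_natCast] at h2
  -- the polynomial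
  set Q : Polynomial A := ∑ j ∈ range p, Polynomial.C (bj D g p j) * Polynomial.X ^ j
      + Polynomial.C (g ^ p - B) * Polynomial.X with hQ
  have hQ0 : Q = 0 := by
    apply Polynomial.eq_zero_of_natDegree_lt_card_of_eval_eq_zero (f := fun i : Fin p => ((i : ℕ) : A))
    · intro i j hij
      have h1 : ((i : ℕ) : A) = ((j : ℕ) : A) := hij
      have h2 := (CharP.natCast_eq_natCast A p).1 h1
      have h3 : (i : ℕ) = j := by
        have := h2
        unfold Nat.ModEq at this
        rwa [Nat.mod_eq_of_lt i.2, Nat.mod_eq_of_lt j.2] at this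
      exact Fin.ext h3
    · intro i
      have h1 := hm i
      rw [Finset.sum_range_succ, bj_self, hfrob] at h1
      rw [hQ, Polynomial.eval_add, Polynomial.eval_finsetSum]
      simp only [Polynomial.eval_mul, Polynomial.eval_C, Polynomial.eval_pow, Polynomial.eval_X]
      linear_combination h1
    · rw [Fintype.card_fin]
      have h1 : Q.degree < p := by
        rw [hQ]
        refine lt_of_le_of_lt (Polynomial.degree_add_le _ _) (max_lt ?_ ?_)
        · refine lt_of_le_of_lt (Polynomial.degree_sum_le _ _) ?_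
          rw [Finset.sup_lt_iff (by exact_mod_cast WithBot.bot_lt_coe p)]
          intro j hj
          refine lt_of_le_of_lt (Polynomial.degree_C_mul_X_pow_le _ _) ?_
          exact_mod_cast Finset.mem_range.1 hj
        · refine lt_of_le_of_lt (Polynomial.degree_C_mul_X_le _) ?_
          exact_mod_cast hp1
      by_cases hz : Q = 0
      · rw [hz]; simp; omega
      · exact (Polynomial.natDegree_lt_iff_degree_lt hz).2 h1
  have h1 := congrArg (fun q => Polynomial.coeff q 1) hQ0
  simp only [hQ, Polynomial.coeff_add, Polynomial.finsetSum_coeff, Polynomial.coeff_C_mul,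
    Polynomial.coeff_X_pow, Polynomial.coeff_zero, Polynomial.coeff_X_one, mul_one, mul_ite, mul_zero] at h1
  rw [Finset.sum_ite_eq, if_pos (Finset.mem_range.2 hp1)] at h1
  obtain ⟨q, hq⟩ : ∃ q, p = q + 1 := ⟨p - 1, by omega⟩
  have h2 : bj D g p 1 = D^[p-1] g := by
    rw [hq, bj_one]; rfl
  rw [h2] at h1
  rw [hDx]
  linear_combination (-x) * h1

end J

end V11294.Th
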