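import Pool.Agent.V11294.Th.Jac

open Finset PowerSeries

namespace V11294.Th

/-- `D = (1-4s²)G² d/ds`. -/
noncomputable def DD {R : Type*} [CommRing R] (G : R⟦X⟧) : Derivation R R⟦X⟧ R⟦X⟧ :=
  ((1 - 4 * X ^ 2) * G ^ 2) • PowerSeries.derivative R

theorem DD_apply {R : Type*} [CommRing R] (G f : R⟦X⟧) :
    DD G f = (1 - 4 * X ^ 2) * G ^ 2 * PowerSeries.derivative R f := by
  simp [DD]

variable (p : ℕ) [hp : Fact p.Prime]

theorem op_charp (hp2 : p ≠ 2) (G P W : (ZMod p)⟦X⟧) (κ : ZMod p)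
    (hG0 : constantCoeff G = 1) (hP0 : constantCoeff P = 1)
    (hG : G = P * G ^ p)
    (hW : (1 - 4 * X ^ 2) * (P * PowerSeries.derivative (ZMod p) W
        - W * PowerSeries.derivative (ZMod p) P) = P ^ 2 - C κ) (f : (ZMod p)⟦X⟧) :
    C κ * (DD G)^[p] f = DD G f := by
  have hp1 := hp.1.one_lt
  have : CharP (ZMod p)⟦X⟧ p := by
    refine charP_of_injective_algebraMap (R := ZMod p) (A := (ZMod p)⟦X⟧) ?_ p
    exact (algebraMap (ZMod p) (ZMod p)⟦X⟧).injective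
  have hpz : ((p : ℕ) : (ZMod p)⟦X⟧) = 0 := CharP.cast_eq_zero _ _
  set D := DD G with hD
  have hGne : G ≠ 0 := by
    intro h; rw [h] at hG0; simp at hG0
  have hPne : P ≠ 0 := by
    intro h; rw [h] at hP0; simp at hP0
  set c : (ZMod p)⟦X⟧ := G ^ p with hc
  have hcne : c ≠ 0 := pow_ne_zero _ hGne
  have hDc : D c = 0 := by
    rw [hc, Derivation.leibniz_pow, nsmul_eq_mul, hpz, zero_mul]
  have hDc2 : D (C κ * c ^ 2) = 0 := by
    have : D (C κ) = 0 := D.map_algebraMap κ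
    rw [Derivation.leibniz, this, Derivation.leibniz_pow, hDc]
    simp
  -- x
  have h2c : constantCoeff (1 - 2 * X : (ZMod p)⟦X⟧) ≠ 0 := by simp
  set y : (ZMod p)⟦X⟧ := (1 - 2 * X)⁻¹ with hy
  have hy1 : (1 - 2 * X) * y = 1 := PowerSeries.mul_inv_cancel _ h2c
  set x : (ZMod p)⟦X⟧ := (1 + 2 * X) * y with hx
  have hxy : (1 - 2 * X) * x = 1 + 2 * X := by
    rw [hx]; linear_combination (1 + 2 * X) * hy1
  have hxne : x ≠ 0 := by
    intro h
    rw [h, mul_zero] at hxy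
    have := congrArg constantCoeff hxy
    simp at this
  have hd2 : PowerSeries.derivative (ZMod p) (2 : (ZMod p)⟦X⟧) = 0 := by
    have := (PowerSeries.derivative (ZMod p)).map_natCast 2
    simpa using this
  have hdx : (1 - 4 * X ^ 2) * PowerSeries.derivative (ZMod p) x = 4 * x := by
    have h1 := congrArg (PowerSeries.derivative (ZMod p)) hxy
    simp only [Derivation.leibniz, map_sub, map_add, Derivation.map_one_eq_zero, hd2,
      PowerSeries.derivative_X, smul_eq_mul, mul_one, mul_zero, add_zero, zero_add, zero_sub] at h1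
    linear_combination (1 + 2 * X) * h1 + (-2) * hxy
  have hDx : D x = (4 * G ^ 2) * x := by
    rw [hD, DD_apply]
    linear_combination (G ^ 2) * hdx
  have hJ := jacobson (A := (ZMod p)⟦X⟧) D (4 * G ^ 2) p x hxne hDx
  -- φ
  set Q : (ZMod p)⟦X⟧ := P⁻¹ with hQ
  have hPQ : P * Q = 1 := PowerSeries.mul_inv_cancel _ (by rw [hP0]; exact one_ne_zero)
  have hGQ : G * Q = c := by
    have : G * Q = (P * c) * Q := by rw [hc, ← hG]
    rw [this]; linear_combination c * hPQ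
  set φ : (ZMod p)⟦X⟧ := W * Q with hφ
  have hdQ : PowerSeries.derivative (ZMod p) Q = - Q ^ 2 * PowerSeries.derivative (ZMod p) P := by
    rw [hQ, PowerSeries.derivative_inv']
  have hDφ : D φ = G ^ 2 - C κ * c ^ 2 := by
    rw [hD, DD_apply, hφ, Derivation.leibniz, hdQ]
    simp only [smul_eq_mul]
    have h1 : (1 - 4 * X ^ 2) * G ^ 2 * (W * (-Q ^ 2 * PowerSeries.derivative (ZMod p) P)
        + Q * PowerSeries.derivative (ZMod p) W) = G ^ 2 * Q ^ 2 * ((1 - 4 * X ^ 2) *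
          (P * PowerSeries.derivative (ZMod p) W - W * PowerSeries.derivative (ZMod p) P)) := by
      linear_combination (-(1 - 4 * X ^ 2) * G ^ 2 * Q * PowerSeries.derivative (ZMod p) W) * hPQ
    rw [h1, hW, ← hGQ]
    linear_combination (G ^ 2 * (P * Q + 1)) * hPQ
  -- p-th power as derivation
  have hE := der_eq (powD p D)
  simp only [powD_apply] at hE
  have hDX : D X = (1 - 4 * X ^ 2) * G ^ 2 := by
    rw [hD, DD_apply]; simp
  have hu : constantCoeff ((1 - 4 * X ^ 2) * G ^ 2 : (ZMod p)⟦X⟧) ≠ 0 := by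
    simp [hG0]
  set ψ : (ZMod p)⟦X⟧ := D^[p] X * ((1 - 4 * X ^ 2) * G ^ 2)⁻¹ with hψ
  have hψ1 : D^[p] X = ψ * D X := by
    rw [hψ, hDX, mul_assoc, PowerSeries.inv_mul_cancel _ hu, mul_one]
  have hE2 : ∀ f, D^[p] f = ψ * D f := by
    intro f
    rw [hE f, hψ1, hD, DD_apply, DD_apply]
    simp
    ring
  -- D^{p-1} G² 
  obtain ⟨q, hq⟩ : ∃ q, p = q + 1 + 1 := ⟨p - 2, by omega⟩
  have h4 : D (4 : (ZMod p)⟦X⟧) = 0 := by
    have := D.map_natCast 4
    simpa using this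
  have hDG : D (4 * G ^ 2) = D (D (4 * φ)) := by
    have h1 : D (4 * φ) = 4 * G ^ 2 - 4 * (C κ * c ^ 2) := by
      rw [Derivation.leibniz, h4, hDφ]; simp; ring
    rw [h1, map_sub, Derivation.leibniz D 4 (C κ * c ^ 2), hDc2, h4]; simp
  have hDp1 : D^[p-1] (4 * G ^ 2) = ψ * (4 * G ^ 2 - 4 * (C κ * c ^ 2)) := by
    have h1 : p - 1 = q + 1 := by omega
    have h3 : D^[p] (4 * φ) = D^[q] (D (D (4 * φ))) := by
      have e : (⇑D)^[p] = (⇑D)^[q + 1 + 1] := congrArg (fun n => (⇑D)^[n]) hq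
      rw [e, Function.iterate_succ_apply, Function.iterate_succ_apply]
    rw [h1, Function.iterate_succ_apply, hDG, ← h3, hE2, Derivation.leibniz, h4, hDφ]
    simp only [smul_eq_mul]; ring
  rw [hE2, hDp1, hDx] at hJ
  have hJ2 : ψ * (4 * G ^ 2) = (4 * G ^ 2) ^ p + ψ * (4 * G ^ 2 - 4 * (C κ * c ^ 2)) := by
    apply mul_right_cancel₀ hxne
    linear_combination hJ
  have h4p : (4 : (ZMod p)⟦X⟧) ^ p = 4 := by
    have h1 : ((4 : ZMod p)) ^ p = 4 := ZMod.pow_card _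
    have h2 := congrArg (algebraMap (ZMod p) (ZMod p)⟦X⟧) h1
    rw [map_pow, map_ofNat] at h2
    exact h2
  have h4ne : (4 : (ZMod p)⟦X⟧) ≠ 0 := by
    intro h
    have h1 : ((4 : ℕ) : (ZMod p)⟦X⟧) = 0 := by exact_mod_cast h
    have h2 := (CharP.cast_eq_zero_iff (ZMod p)⟦X⟧ p 4).1 h1
    have h3 : p ∣ 2 := by
      have : p ∣ 2 ^ 2 := by norm_num; exact h2
      exact hp.1.dvd_of_dvd_pow this
    exact hp2 ((Nat.prime_dvd_prime_iff_eq hp.1 Nat.prime_two).1 h3)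
  have hJ3 : ψ * C κ = 1 := by
    apply mul_left_cancel₀ (mul_ne_zero h4ne (pow_ne_zero 2 hcne))
    have : (4 * G ^ 2) ^ p = 4 * c ^ 2 := by
      rw [mul_pow, h4p, hc]; ring
    rw [this] at hJ2
    linear_combination hJ2
  rw [hE2]
  linear_combination (D f) * hJ3

end V11294.Th
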