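import Pool.Agent.V11294.Th.ChPS

open Finset PowerSeries

namespace V11294.Th

section Abs
variable {R M : Type*} [CommRing R] [AddCommGroup M] [Module R M] (D : Module.End R M) (p : ℕ) (h : R)

/-- polynomials in `D` that map everything into `p^e M` -/
def II (e : ℕ) (q : Polynomial R) : Prop := ∀ f : M, ∃ g : M, (Polynomial.aeval D q) f = ((p : R) ^ e) • g

theorem II_mul {a b : ℕ} {q r : Polynomial R} (hq : II D p a q) (hr : II D p b r) : II D p (a + b) (q * r) := by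
  intro f
  obtain ⟨g, hg⟩ := hr f
  obtain ⟨g', hg'⟩ := hq g
  refine ⟨g', ?_⟩
  rw [map_mul, Module.End.mul_apply, hg, map_smul, hg', smul_smul, pow_add, mul_comm]

theorem II_add {a : ℕ} {q r : Polynomial R} (hq : II D p a q) (hr : II D p a r) : II D p a (q + r) := by
  intro f
  obtain ⟨g, hg⟩ := hr f
  obtain ⟨g', hg'⟩ := hq f
  refine ⟨g' + g, ?_⟩
  rw [map_add, LinearMap.add_apply, hg, hg', smul_add]

theorem II_zero (q : Polynomial R) : II D p 0 q := by
  intro f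
  exact ⟨_, by rw [pow_zero, one_smul]⟩

theorem II_left {a : ℕ} {q : Polynomial R} (r : Polynomial R) (hq : II D p a q) : II D p a (r * q) := by
  have := II_mul D p (II_zero D p r) hq
  rwa [zero_add] at this

theorem II_p : II D p 1 (Polynomial.C (p : R)) := by
  intro f
  refine ⟨f, ?_⟩
  rw [Polynomial.aeval_C, pow_one]
  rfl

variable (hK : ∀ f : M, ∃ g : M, (D ^ p) f - h • D f = (p : R) • g) (hp0 : 0 < p)

open Polynomial in
include hK hp0 in
theorem II_base (N : ℕ) : II D p 1 (Polynomial.X * (Polynomial.X ^ ((p - 1) * N) - Polynomial.C h ^ N)) := by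
  have h1 : II D p 1 (Polynomial.X * (Polynomial.X ^ (p - 1) - Polynomial.C h)) := by
    intro f
    obtain ⟨g, hg⟩ := hK f
    refine ⟨g, ?_⟩
    rw [pow_one, ← hg]
    have e : (Polynomial.X * (Polynomial.X ^ (p - 1) - Polynomial.C h) : Polynomial R)
        = Polynomial.X ^ p - Polynomial.C h * Polynomial.X := by
      have : (Polynomial.X : Polynomial R) ^ p = Polynomial.X * Polynomial.X ^ (p - 1) := by
        rw [← pow_succ', Nat.sub_add_cancel hp0]
      rw [this]; ring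
    rw [e, map_sub, map_mul, map_pow, Polynomial.aeval_X, Polynomial.aeval_C, LinearMap.sub_apply]
    rfl
  obtain ⟨q, hq⟩ := sub_dvd_pow_sub_pow (Polynomial.X ^ (p - 1) : Polynomial R) (Polynomial.C h) N
  have e : (Polynomial.X * (Polynomial.X ^ ((p - 1) * N) - Polynomial.C h ^ N) : Polynomial R)
      = q * (Polynomial.X * (Polynomial.X ^ (p - 1) - Polynomial.C h)) := by
    rw [pow_mul, hq]; ring
  rw [e]
  exact II_left D p q h1

include hK hp0 in
theorem II_main (N k : ℕ) : II D p (k + 1)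
    (Polynomial.X ^ (k + 1) * (Polynomial.X ^ ((p - 1) * (N * p ^ k)) - Polynomial.C h ^ (N * p ^ k))) := by
  induction k with
  | zero =>
    have := II_base D p h hK hp0 N
    simpa using this
  | succ k ih =>
    set a : Polynomial R := Polynomial.X ^ ((p - 1) * (N * p ^ k)) with ha
    set b : Polynomial R := Polynomial.C h ^ (N * p ^ k) with hb
    have ha' : (Polynomial.X ^ ((p - 1) * (N * p ^ (k + 1))) : Polynomial R) = a ^ p := by
      rw [ha, ← pow_mul, pow_succ]; congr 1; ring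
    have hb' : (Polynomial.C h ^ (N * p ^ (k + 1)) : Polynomial R) = b ^ p := by
      rw [hb, ← pow_mul, pow_succ, mul_assoc]
    obtain ⟨c, hc⟩ := Polynomial.powAddExpansion b (a - b) p
    rw [ha', hb']
    have e : (Polynomial.X ^ (k + 1 + 1) * (a ^ p - b ^ p) : Polynomial R)
        = (Polynomial.X ^ (k + 1) * (a - b)) *
          ((b ^ (p - 1) * Polynomial.X) * Polynomial.C (p : R) + c * (Polynomial.X * (a - b))) := by
      have h1 : a ^ p = b ^ p + p * b ^ (p - 1) * (a - b) + c * (a - b) ^ 2 := by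
        rw [← hc]; congr 1; ring
      rw [h1]
      have h2 : (Polynomial.C (p : R)) = (p : Polynomial R) := by simp
      rw [h2]
      ring
    rw [e]
    exact II_mul D p ih (II_add D p (II_left D p _ (II_p D p)) (II_left D p _ (II_base D p h hK hp0 _)))

include hK hp0 in
theorem pow_main (N k n : ℕ) (hn : k + 1 ≤ n) (f : M) :
    ∃ g : M, (D ^ (n + (p - 1) * (N * p ^ k))) f - (h ^ (N * p ^ k)) • (D ^ n) f = ((p : R) ^ (k + 1)) • g := by
  obtain ⟨g, hg⟩ := II_left D p (Polynomial.X ^ (n - (k + 1))) (II_main D p h hK hp0 N k) f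
  refine ⟨g, ?_⟩
  rw [← hg]
  have e : (Polynomial.X ^ (n - (k + 1)) * (Polynomial.X ^ (k + 1) * (Polynomial.X ^ ((p - 1) * (N * p ^ k))
      - Polynomial.C h ^ (N * p ^ k))) : Polynomial R)
      = Polynomial.X ^ (n + (p - 1) * (N * p ^ k)) - Polynomial.C (h ^ (N * p ^ k)) * Polynomial.X ^ n := by
    have h1 : (Polynomial.X ^ n : Polynomial R) = Polynomial.X ^ (n - (k + 1)) * Polynomial.X ^ (k + 1) := by
      rw [← pow_add, Nat.sub_add_cancel hn]
    have h0 : (Polynomial.X ^ (n + (p - 1) * (N * p ^ k)) : Polynomial R)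
      = Polynomial.X ^ n * Polynomial.X ^ ((p - 1) * (N * p ^ k)) := pow_add _ _ _
    rw [h0, h1, map_pow]; ring
  have e1 : ∀ j, Polynomial.aeval D (Polynomial.X ^ j : Polynomial R) = D ^ j := by
    intro j; rw [map_pow, Polynomial.aeval_X]
  rw [e, map_sub, map_mul, Polynomial.aeval_C, e1, e1, LinearMap.sub_apply]
  rfl

end Abs

section Map
variable {R S : Type*} [CommRing R] [CommRing S] (φ : R →+* S)

theorem map_der (f : R⟦X⟧) : PowerSeries.map φ (PowerSeries.derivative R f)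
    = PowerSeries.derivative S (PowerSeries.map φ f) := by
  ext n
  rw [coeff_map, coeff_derivative, coeff_derivative, coeff_map]
  simp

theorem map_DD (G f : R⟦X⟧) : PowerSeries.map φ (DD G f) = DD (PowerSeries.map φ G) (PowerSeries.map φ f) := by
  rw [DD_apply, DD_apply, map_mul, map_der, map_mul, map_pow, map_sub, map_mul, map_pow, map_one,
    PowerSeries.map_X, map_ofNat]

theorem map_DD_iter (G f : R⟦X⟧) (n : ℕ) : PowerSeries.map φ ((DD G)^[n] f)
    = (DD (PowerSeries.map φ G))^[n] (PowerSeries.map φ f) := by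
  induction n with
  | zero => rfl
  | succ n ih => rw [Function.iterate_succ_apply', Function.iterate_succ_apply', map_DD, ih]

theorem map_evS (g : ℕ → R) : PowerSeries.map φ (evS g) = evS (fun n => φ (g n)) := by
  ext n
  rw [coeff_map]
  simp only [evS, coeff_mk]
  split_ifs <;> simp

end Map

section Z
variable (p m : ℕ) [hp : Fact p.Prime] (hpm : p = 4 * m + 1)
variable (γ : ℕ → ℤ_[p]) (hγ : ∀ n, ((NN n : ℕ) : ℤ_[p]) ^ 2 = ((2 * n).factorial : ℤ_[p]) * γ n)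

theorem dvd_of_toZMod (x : ℤ_[p]) (hx : PadicInt.toZMod x = 0) : (p : ℤ_[p]) ∣ x := by
  have h1 : x ∈ RingHom.ker (PadicInt.toZMod : ℤ_[p] →+* ZMod p) := hx
  rw [PadicInt.ker_toZMod, PadicInt.maximalIdeal_eq_span_p, Ideal.mem_span_singleton] at h1
  exact h1

include hpm hγ in
theorem key_Z (f : ℤ_[p]⟦X⟧) : ∃ g : ℤ_[p]⟦X⟧,
    (((DD (evS γ) : Derivation ℤ_[p] ℤ_[p]⟦X⟧ ℤ_[p]⟦X⟧) : ℤ_[p]⟦X⟧ →ₗ[ℤ_[p]] ℤ_[p]⟦X⟧) ^ p) f
      - ((((2 * m).choose m : ℕ) : ℤ_[p]) ^ 2) • ((DD (evS γ) : Derivation ℤ_[p] ℤ_[p]⟦X⟧ ℤ_[p]⟦X⟧) :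
        ℤ_[p]⟦X⟧ →ₗ[ℤ_[p]] ℤ_[p]⟦X⟧) f = (p : ℤ_[p]) • g := by
  have h1 : (((DD (evS γ) : Derivation ℤ_[p] ℤ_[p]⟦X⟧ ℤ_[p]⟦X⟧) : ℤ_[p]⟦X⟧ →ₗ[ℤ_[p]] ℤ_[p]⟦X⟧) ^ p) f
      = (DD (evS γ))^[p] f := by
    rw [Module.End.pow_apply]; rfl
  have h2 : ((DD (evS γ) : Derivation ℤ_[p] ℤ_[p]⟦X⟧ ℤ_[p]⟦X⟧) :
        ℤ_[p]⟦X⟧ →ₗ[ℤ_[p]] ℤ_[p]⟦X⟧) f = DD (evS γ) f := rfl
  rw [h1, h2]
  set T := (DD (evS γ))^[p] f - ((((2 * m).choose m : ℕ) : ℤ_[p]) ^ 2) • DD (evS γ) f with hT
  have h3 : PowerSeries.map (PadicInt.toZMod (p := p)) T = 0 := by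
    rw [hT, map_sub, map_DD_iter, PowerSeries.smul_eq_C_mul, map_mul, PowerSeries.map_C, map_DD, map_evS]
    rw [op_final p m hpm (fun n => PadicInt.toZMod (γ n)) ?_ ?_ ?_ ?_]
    · simp only [map_pow, map_natCast]; ring
    · rw [gam_zero p γ hγ, map_one]
    · intro b
      have := congrArg PadicInt.toZMod (gam_rec p γ hγ b)
      simp only [map_mul, map_add, map_pow, map_natCast, map_one, map_ofNat] at this
      exact this
    · intro a b hb hbp
      exact luc_hi p m hpm γ hγ a b hb hbp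
    · intro a b hb
      exact luc_lo p m hpm γ hγ a b hb
  have h4 : ∀ n, (p : ℤ_[p]) ∣ coeff n T := by
    intro n
    apply dvd_of_toZMod
    have := congrArg (coeff n) h3
    rwa [coeff_map, map_zero] at this
  choose g hg using h4
  refine ⟨PowerSeries.mk g, ?_⟩
  ext n
  rw [hg n]
  simp

include hpm hγ in
theorem coeff_main (F : ℤ_[p]⟦X⟧) (N k n : ℕ) (hn : k + 1 ≤ n) :
    (p : ℤ_[p]) ^ (k + 1) ∣ constantCoeff ((DD (evS γ))^[n + (p - 1) * (N * p ^ k)] F)
      - ((((2 * m).choose m : ℕ) : ℤ_[p]) ^ 2) ^ (N * p ^ k) * constantCoeff ((DD (evS γ))^[n] F) := by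
  obtain ⟨g, hg⟩ := pow_main ((DD (evS γ) : Derivation ℤ_[p] ℤ_[p]⟦X⟧ ℤ_[p]⟦X⟧) :
        ℤ_[p]⟦X⟧ →ₗ[ℤ_[p]] ℤ_[p]⟦X⟧) p ((((2 * m).choose m : ℕ) : ℤ_[p]) ^ 2)
        (key_Z p m hpm γ hγ) hp.1.pos N k n hn F
  refine ⟨constantCoeff g, ?_⟩
  have h1 := congrArg constantCoeff hg
  rw [map_sub, Module.End.pow_apply, Module.End.pow_apply] at h1
  rw [PowerSeries.smul_eq_C_mul, PowerSeries.smul_eq_C_mul, map_mul, map_mul,
    PowerSeries.constantCoeff_C, PowerSeries.constantCoeff_C] at h1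
  exact h1

end Z

end V11294.Th
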