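import Pool.Agent.V11294.Th.Wp

open Finset

namespace V11294.Th

section P
variable (p m : ℕ) [hp : Fact p.Prime] (hpm : p = 4 * m + 1)

/-- the explicit coefficient in char p -/
noncomputable def pc (b : ℕ) : ZMod p :=
  4 ^ b * (m.choose b : ZMod p) * ((3 * m).choose (m - b) : ZMod p) / ((3 * m).choose m : ZMod p)

include hpm

theorem cast_ne (n : ℕ) (h1 : 1 ≤ n) (h2 : n < p) : (n : ZMod p) ≠ 0 := by
  intro h
  rw [ZMod.natCast_eq_zero_iff] at h
  have := Nat.le_of_dvd h1 h
  omega

theorem fact_ne (n : ℕ) (h2 : n < p) : ((n.factorial : ℕ) : ZMod p) ≠ 0 := by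
  intro h
  rw [ZMod.natCast_eq_zero_iff, hp.1.dvd_factorial] at h
  omega

theorem m4 : (4 : ZMod p) * (m : ZMod p) + 1 = 0 := by
  have : ((4 * m + 1 : ℕ) : ZMod p) = 0 := by rw [← hpm]; simp
  exact_mod_cast this

theorem m_pos : 1 ≤ m := by
  rcases Nat.eq_zero_or_pos m with h | h
  · exfalso
    subst h
    have := hp.1.one_lt
    omega
  · exact h

theorem prod_neg (a c : ℕ) (k : ℕ) (hk : k ≤ a + 1) (h : a + c = p) :
    ∏ i ∈ range k, ((a - i : ℕ) : ZMod p) = (-1) ^ k * ∏ i ∈ range k, ((c + i : ℕ) : ZMod p) := by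
  have h1 : (-1 : ZMod p) ^ k = ∏ i ∈ range k, (-1 : ZMod p) := by simp
  rw [h1, ← Finset.prod_mul_distrib]
  apply Finset.prod_congr rfl
  intro i hi
  have hi' := Finset.mem_range.1 hi
  have h2 : (((a - i) + (c + i) : ℕ) : ZMod p) = 0 := by
    have : (a - i) + (c + i) = p := by omega
    rw [this]; simp
  push_cast at h2 ⊢
  linear_combination h2

theorem ch4 : ((4 * m).choose m : ZMod p) = (-1) ^ m := by
  have h1 : ((4 * m).descFactorial m : ZMod p) = m.factorial * (4 * m).choose m := by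
    rw [Nat.descFactorial_eq_factorial_mul_choose]; push_cast; ring
  have h2 : ((4 * m).descFactorial m : ZMod p) = (-1) ^ m * m.factorial := by
    rw [Nat.descFactorial_eq_prod_range, Nat.cast_prod, prod_neg p m hpm (4 * m) 1 m (by omega) (by omega)]
    rw [← Nat.cast_prod]
    congr 2
    rw [← Nat.one_ascFactorial, Nat.ascFactorial_eq_prod_range]
  have h3 := fact_ne p m hpm m (by omega)
  apply mul_left_cancel₀ h3
  rw [← h1, h2]; ring

theorem ch3 : ((3 * m).choose m : ZMod p) = (-1) ^ m * (2 * m).choose m := by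
  have h1 : ((3 * m).descFactorial m : ZMod p) = m.factorial * (3 * m).choose m := by
    rw [Nat.descFactorial_eq_factorial_mul_choose]; push_cast; ring
  have h2 : ((3 * m).descFactorial m : ZMod p) = (-1) ^ m * (m.factorial * (2 * m).choose m) := by
    rw [Nat.descFactorial_eq_prod_range, Nat.cast_prod, prod_neg p m hpm (3 * m) (m + 1) m (by omega) (by omega)]
    rw [← Nat.cast_prod, ← Nat.ascFactorial_eq_prod_range, Nat.ascFactorial_eq_factorial_mul_choose]
    push_cast
    rw [show m + m = 2 * m by ring]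
  have h3 := fact_ne p m hpm m (by omega)
  apply mul_left_cancel₀ h3
  rw [← h1, h2]; ring

theorem ch2_ne : ((2 * m).choose m : ZMod p) ≠ 0 := by
  intro h
  have h1 : (((2 * m).choose m * m.factorial * (2 * m - m).factorial : ℕ) : ZMod p) = ((2 * m).factorial : ℕ) := by
    rw [Nat.choose_mul_factorial_mul_factorial (by omega)]
  push_cast at h1
  rw [h, zero_mul, zero_mul] at h1
  exact fact_ne p m hpm (2 * m) (by omega) (by exact_mod_cast h1.symm)

theorem ch3_ne : ((3 * m).choose m : ZMod p) ≠ 0 := by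
  rw [ch3 p m hpm]
  exact mul_ne_zero (pow_ne_zero _ (by simp)) (ch2_ne p m hpm)

theorem four_ne : (4 : ZMod p) ≠ 0 := by
  intro h
  have := m4 p m hpm
  rw [h] at this
  simp at this

theorem pc_zero : pc p m 0 = 1 := by
  unfold pc
  have := ch3_ne p m hpm
  simp [this]

theorem pc_rec (b : ℕ) (hb : b < m) :
    (2 * (b : ZMod p) + 1) * (2 * b + 2) * pc p m (b + 1) = (4 * b + 1) ^ 2 * pc p m b := by
  unfold pc
  rw [← mul_div_assoc, ← mul_div_assoc]
  congr 1
  have h1 := Nat.choose_succ_right_eq m b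
  have h2 := Nat.choose_succ_right_eq (3 * m) (m - (b + 1))
  rw [show m - (b + 1) + 1 = m - b by omega, show 3 * m - (m - (b + 1)) = 2 * m + b + 1 by omega] at h2
  have h1' := congrArg (Nat.cast : ℕ → ZMod p) h1
  have h2' := congrArg (Nat.cast : ℕ → ZMod p) h2
  have hc : (((m - b : ℕ) + b : ℕ) : ZMod p) = m := by rw [Nat.sub_add_cancel hb.le]
  push_cast at h1' h2' hc
  have hm := m4 p m hpm
  set x : ZMod p := (m.choose b : ZMod p)
  set x' : ZMod p := (m.choose (b+1) : ZMod p)
  set y : ZMod p := ((3 * m).choose (m - b) : ZMod p)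
  set y' : ZMod p := ((3 * m).choose (m - (b + 1)) : ZMod p)
  set c : ZMod p := ((m - b : ℕ) : ZMod p)
  have hy : (2 * (b : ZMod p) + 1) * y' = 2 * (y * c) := by
    rw [h2']
    linear_combination (-y') * hm
  have hcc : 4 * c = - (4 * b + 1) := by
    linear_combination 4 * hc + hm
  have e1 : (2 * (b : ZMod p) + 1) * (2 * b + 2) * (4 ^ (b + 1) * x' * y')
      = 4 ^ b * 8 * (x' * (b + 1)) * ((2 * b + 1) * y') := by ring
  rw [e1, h1', hy]
  have e2 : 4 ^ b * 8 * (x * c) * (2 * (y * c)) = (4 * c) ^ 2 * (4 ^ b * x * y) := by ring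
  rw [e2, hcc]; ring

theorem pc_eq (g : ℕ → ZMod p) (h0 : g 0 = 1)
    (hg : ∀ b : ℕ, (2 * (b : ZMod p) + 1) * (2 * b + 2) * g (b + 1) = (4 * b + 1) ^ 2 * g b)
    (b : ℕ) (hb : b ≤ m) : g b = pc p m b := by
  induction b with
  | zero => rw [h0, pc_zero p m hpm]
  | succ b ih =>
    have h1 : (2 * (b : ZMod p) + 1) ≠ 0 := by
      have := cast_ne p m hpm (2 * b + 1) (by omega) (by omega)
      exact_mod_cast this
    have h2 : (2 * (b : ZMod p) + 2) ≠ 0 := by
      have := cast_ne p m hpm (2 * b + 2) (by omega) (by omega)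
      exact_mod_cast this
    apply mul_left_cancel₀ (mul_ne_zero h1 h2)
    rw [hg, pc_rec p m hpm b (by omega), ih (by omega)]

theorem pc_sum : (∑ b ∈ range (m + 1), pc p m b * (1 / 2) ^ (2 * b)) * ((2 * m).choose m : ZMod p) = 1 := by
  have h4 := four_ne p m hpm
  have h3 := ch3_ne p m hpm
  have h1 : ∀ b, pc p m b * (1 / 2) ^ (2 * b)
      = ((m.choose b : ZMod p) * ((3 * m).choose (m - b) : ZMod p)) / ((3 * m).choose m : ZMod p) := by
    intro b
    unfold pc
    have e : (4 : ZMod p) ^ b * (1 / 2) ^ (2 * b) = 1 := by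
      rw [pow_mul, ← mul_pow]
      have : (4 : ZMod p) * (1 / 2) ^ 2 = 1 := by
        have h2 : (2 : ZMod p) ≠ 0 := by
          intro h; apply h4
          have : (4 : ZMod p) = 2 * 2 := by norm_num
          rw [this, h]; ring
        field_simp
        norm_num
      rw [this, one_pow]
    linear_combination ((m.choose b : ZMod p) * ((3 * m).choose (m - b) : ZMod p)
      / ((3 * m).choose m : ZMod p)) * e
  simp only [h1]
  rw [← Finset.sum_div]
  have h2 : ∑ b ∈ range (m + 1), (m.choose b : ZMod p) * ((3 * m).choose (m - b) : ZMod p)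
      = ((4 * m).choose m : ZMod p) := by
    have h5 := Nat.add_choose_eq m (3 * m) m
    rw [Finset.Nat.sum_antidiagonal_eq_sum_range_succ (fun i j => m.choose i * (3 * m).choose j)] at h5
    rw [show 4 * m = m + 3 * m by ring, h5]
    push_cast
    rfl
  rw [h2, ch4 p m hpm]
  rw [div_mul_eq_mul_div, div_eq_one_iff_eq h3, ch3 p m hpm]

/-- the character computation -/
theorem char_one : ((2 : ZMod p) ^ (2 * m) * ((2 * m).choose m : ZMod p) ^ 2) ^ m = 1 := by
  -- Wilson
  have hw : (((4 * m).factorial : ℕ) : ZMod p) = -1 := by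
    have := ZMod.wilsons_lemma p
    rw [show p - 1 = 4 * m by omega] at this
    exact this
  have hf : (((2 * m).factorial : ℕ) : ZMod p) ^ 2 = -1 := by
    have h1 : (4 * m).factorial = (4 * m - 2 * m).factorial * (4 * m).descFactorial (2 * m) :=
      (Nat.factorial_mul_descFactorial (by omega)).symm
    have h2 : ((4 * m).descFactorial (2 * m) : ZMod p) = (2 * m).factorial := by
      rw [Nat.descFactorial_eq_prod_range, Nat.cast_prod,
        prod_neg p m hpm (4 * m) 1 (2 * m) (by omega) (by omega)]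
      rw [← Nat.cast_prod, ← Nat.ascFactorial_eq_prod_range, Nat.one_ascFactorial]
      rw [pow_mul]; simp
    rw [h1, show 4 * m - 2 * m = 2 * m by omega] at hw
    push_cast at hw
    rw [h2] at hw
    rw [sq]; exact hw
  have hm0 := fact_ne p m hpm m (by omega)
  have hC : ((2 * m).choose m : ZMod p) * ((m.factorial : ℕ) : ZMod p) ^ 2 = ((2 * m).factorial : ℕ) := by
    have h1 : (((2 * m).choose m * m.factorial * (2 * m - m).factorial : ℕ) : ZMod p) = ((2 * m).factorial : ℕ) := by
      rw [Nat.choose_mul_factorial_mul_factorial (by omega)]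
    rw [show 2 * m - m = m by omega] at h1
    push_cast at h1
    linear_combination h1
  have hferm : (((m.factorial : ℕ) : ZMod p)) ^ (4 * m) = 1 := by
    have := ZMod.pow_card_sub_one_eq_one hm0
    rwa [show p - 1 = 4 * m by omega] at this
  have h2 : (2 : ZMod p) ^ (2 * m) = (-1) ^ m := by
    have hodd : p ≠ 2 := by omega
    have h1 := legendreSym.eq_pow p 2
    rw [legendreSym.at_two hodd, ZMod.χ₈_nat_eq_if_mod_eight] at h1
    rw [show p / 2 = 2 * m by omega] at h1
    rw [if_neg (by omega)] at h1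
    push_cast at h1
    rw [← h1]
    rcases Nat.even_or_odd m with ⟨k, hk⟩ | ⟨k, hk⟩
    · rw [if_pos (by omega)]
      rw [Even.neg_one_pow ⟨k, hk⟩]
    · rw [if_neg (by omega)]
      rw [Odd.neg_one_pow ⟨k, hk⟩]
  have h5 : (((2 * m).choose m : ZMod p) ^ 2) ^ m = (-1) ^ m := by
    have h6 : ((((2 * m).choose m : ZMod p) * ((m.factorial : ℕ) : ZMod p) ^ 2) ^ 2) ^ m = (-1) ^ m := by
      rw [hC, hf]
    have h7 : ((((2 * m).choose m : ZMod p) * ((m.factorial : ℕ) : ZMod p) ^ 2) ^ 2) ^ m
        = (((2 * m).choose m : ZMod p) ^ 2) ^ m * ((m.factorial : ℕ) : ZMod p) ^ (4 * m) := by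
      ring
    rw [h7, hferm, mul_one] at h6
    exact h6
  rw [mul_pow, h5, h2, ← mul_pow, ← pow_succ, ← pow_mul]
  have : Even ((m + 1) * m) := by
    rw [mul_comm]; exact Nat.even_mul_succ_self m
  exact Even.neg_one_pow this

end P

end V11294.Th
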