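import Mathlib

open Finset Polynomial

namespace V11294.Th

section W
variable {F : Type*} [Field F]

/-- the Legendre-type operator `((1-4X²)f')' - f` -/
noncomputable def ell (f : F[X]) : F[X] := derivative ((1 - 4 * X ^ 2) * derivative f) - f

theorem coeff_ell (f : F[X]) (j : ℕ) :
    (ell f).coeff j = ((j : F) + 1) * (j + 2) * f.coeff (j + 2) - (2 * j + 1) ^ 2 * f.coeff j := by
  unfold ell
  rw [coeff_sub, coeff_derivative, sub_mul, one_mul, coeff_sub, coeff_derivative, mul_assoc 4]
  have h4 : (4 * (X ^ 2 * derivative f) : F[X]) = C 4 * (X ^ 2 * derivative f) := by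
    rw [map_ofNat]
  rw [h4, coeff_C_mul, coeff_X_pow_mul']
  rcases j with _ | i
  · simp; ring
  · rw [if_pos (by omega), show i + 1 + 1 - 2 = i by omega, coeff_derivative]
    push_cast
    ring

theorem ell_add (f g : F[X]) : ell (f + g) = ell f + ell g := by
  unfold ell
  simp only [map_add, mul_add]
  ring

theorem exists_W (ν : ℕ) (hν : ∀ k < ν, (2 * (k : F) + 1) ≠ 0) :
    ∀ k ≤ ν, ∀ R : F[X], R.degree < (k : ℕ) → ∃ W : F[X], W.degree < (k : ℕ) ∧ ell W = R := by
  intro k
  induction k with
  | zero =>
    intro _ R hR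
    have : R = 0 := by
      rw [← degree_eq_bot]
      simpa using hR
    refine ⟨0, by simp, ?_⟩
    rw [this]; simp [ell]
  | succ k ih =>
    intro hk R hR
    have hne := hν k (by omega)
    set r := R.coeff k with hr
    set W1 : F[X] := C (-r / (2 * k + 1) ^ 2) * X ^ k with hW1
    have hdeg : (R - ell W1).degree < (k : ℕ) := by
      rw [degree_lt_iff_coeff_zero]
      intro j hj
      rw [coeff_sub, coeff_ell, hW1]
      simp only [coeff_C_mul, coeff_X_pow]
      rcases eq_or_lt_of_le hj with h | h
      · subst h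
        rw [if_neg (by omega), if_pos rfl, ← hr]
        have e : (2 * (k : F) + 1) ^ 2 * (-r / (2 * k + 1) ^ 2) = -r :=
          mul_div_cancel₀ _ (pow_ne_zero 2 hne)
        linear_combination e
      · rw [if_neg (by omega), if_neg (by omega)]
        have := (degree_lt_iff_coeff_zero R (k+1)).1 hR j (by omega)
        rw [this]; ring
    obtain ⟨W2, hW2d, hW2⟩ := ih (by omega) _ hdeg
    refine ⟨W1 + W2, ?_, ?_⟩
    · refine lt_of_le_of_lt (degree_add_le _ _) (max_lt ?_ ?_)
      · rw [hW1]
        refine lt_of_le_of_lt (degree_C_mul_X_pow_le _ _) ?_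
        exact_mod_cast Nat.lt_succ_self k
      · refine lt_trans hW2d ?_
        exact_mod_cast Nat.lt_succ_self k
    · rw [ell_add, hW2]; ring

theorem exists_wronsk (p : ℕ) [hp : Fact p.Prime] [CharP F p] (hp2 : p ≠ 2) (ν : ℕ) (h2 : 2 ≤ ν) (hνp : 2 * ν < p)
    (P : F[X]) (hPd : P.natDegree ≤ ν) (hP : ell P = 0) :
    ∃ W : F[X], (1 - 4 * X ^ 2) * (P * derivative W - W * derivative P)
      = P ^ 2 - C ((P.eval (1/2)) ^ 2) := by
  have h2ne : (2 : F) ≠ 0 := by
    intro h
    have h1 : ((2 : ℕ) : F) = 0 := by exact_mod_cast h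
    rw [CharP.cast_eq_zero_iff F p] at h1
    exact hp2 ((Nat.prime_dvd_prime_iff_eq hp.1 Nat.prime_two).1 h1)
  have hν : ∀ k < ν, (2 * (k : F) + 1) ≠ 0 := by
    intro k hk h
    have h1 : ((2 * k + 1 : ℕ) : F) = 0 := by push_cast; exact h
    rw [CharP.cast_eq_zero_iff F p] at h1
    have := Nat.le_of_dvd (by omega) h1
    omega
  have hdR : (2 * derivative P : F[X]).degree < (ν : ℕ) := by
    have h3 : (2 * derivative P : F[X]).natDegree ≤ ν - 1 := by
      have h4 : (2 * derivative P : F[X]) = C 2 * derivative P := by rw [map_ofNat]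
      rw [h4]
      refine le_trans (natDegree_C_mul_le _ _) ?_
      exact le_trans (natDegree_derivative_le _) (by omega)
    refine lt_of_le_of_lt (degree_le_natDegree) ?_
    exact_mod_cast (by omega : (2 * derivative P : F[X]).natDegree < ν)
  obtain ⟨W, hWd, hW⟩ := exists_W ν hν ν le_rfl (2 * derivative P) hdR
  refine ⟨W, ?_⟩
  have hWn : W.natDegree ≤ ν - 1 := by
    by_cases hz : W = 0
    · rw [hz]; simp
    · have := (natDegree_lt_iff_degree_lt hz).2 hWd
      omega
  set T : F[X] := (1 - 4 * X ^ 2) * (P * derivative W - W * derivative P) - P ^ 2 with hT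
  have hTd : T.natDegree < p := by
    have e1 : (1 - 4 * X ^ 2 : F[X]).natDegree ≤ 2 := by
      compute_degree
    have e2 : (P * derivative W).natDegree ≤ 2 * ν - 2 := by
      refine le_trans natDegree_mul_le ?_
      have := natDegree_derivative_le W
      omega
    have e3 : (W * derivative P).natDegree ≤ 2 * ν - 2 := by
      refine le_trans natDegree_mul_le ?_
      have := natDegree_derivative_le P
      omega
    have e4 : (P * derivative W - W * derivative P).natDegree ≤ 2 * ν - 2 :=
      le_trans (natDegree_sub_le _ _) (max_le e2 e3)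
    have e5 : ((1 - 4 * X ^ 2) * (P * derivative W - W * derivative P)).natDegree ≤ 2 * ν := by
      refine le_trans natDegree_mul_le ?_
      omega
    have e6 : (P ^ 2).natDegree ≤ 2 * ν := by
      refine le_trans natDegree_pow_le ?_
      omega
    have : T.natDegree ≤ 2 * ν := le_trans
      (natDegree_sub_le ((1 - 4 * X ^ 2) * (P * derivative W - W * derivative P)) (P ^ 2))
      (max_le e5 e6)
    omega
  have hTder : derivative T = 0 := by
    have a1 : derivative ((1 - 4 * X ^ 2) * derivative W) = 2 * derivative P + W := by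
      have : derivative ((1 - 4 * X ^ 2) * derivative W) = ell W + W := by unfold ell; ring
      rw [this, hW]
    have a2 : derivative ((1 - 4 * X ^ 2) * derivative P) = P := by
      have : derivative ((1 - 4 * X ^ 2) * derivative P) = ell P + P := by unfold ell; ring
      rw [this, hP, zero_add]
    have a3 : T = P * ((1 - 4 * X ^ 2) * derivative W) - W * ((1 - 4 * X ^ 2) * derivative P) - P * P := by
      rw [hT]; ring
    rw [a3]
    simp only [derivative_sub, derivative_mul (f := P), derivative_mul (f := W), a1, a2]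
    ring
  have hTc : T = C (T.coeff 0) := by
    ext k
    rcases Nat.eq_zero_or_pos k with h | h
    · subst h; simp
    · rw [coeff_C, if_neg (by omega)]
      by_cases hk : k < p
      · have h1 := congrArg (fun q => q.coeff (k-1)) hTder
        simp only [coeff_derivative, coeff_zero] at h1
        rw [Nat.sub_add_cancel h] at h1
        have h3 : (((k - 1 : ℕ) : F) + 1) ≠ 0 := by
          intro h4
          have h5 : ((k : ℕ) : F) = 0 := by
            have : ((k - 1 + 1 : ℕ) : F) = 0 := by push_cast; exact h4
            rwa [Nat.sub_add_cancel h] at this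
          rw [CharP.cast_eq_zero_iff F p] at h5
          have := Nat.le_of_dvd h h5
          omega
        exact (mul_eq_zero.1 h1).resolve_right h3
      · exact coeff_eq_zero_of_natDegree_lt (by omega)
  have hev : T.eval (1/2) = - (P.eval (1/2)) ^ 2 := by
    rw [hT]
    simp only [eval_sub, eval_mul, eval_pow, eval_one, eval_ofNat, eval_X]
    have : (1 - 4 * (1/2)^2 : F) = 0 := by field_simp; norm_num
    rw [this]; ring
  have hT0 : T.coeff 0 = - (P.eval (1/2)) ^ 2 := by
    rw [← hev, hTc]; simp
  rw [hT0] at hTc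
  have : (1 - 4 * X ^ 2) * (P * derivative W - W * derivative P) = T + P ^ 2 := by
    rw [hT]; ring
  rw [this, hTc]
  simp
  ring

end W

end V11294.Th
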